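import Mathlib

namespace Pool.Agent.WkD
open Finset
open scoped Classical

theorem game {A B : Type} [Fintype A] [Fintype B] [Nonempty A] [Nonempty B] (R : A → B → Prop)
    (β : ℝ) (h : ∀ μ ∈ stdSimplex ℝ A, ∃ b, β ≤ ∑ a, if R a b then μ a else 0) :
    ∃ lam ∈ stdSimplex ℝ B, ∀ a, β ≤ ∑ b, if R a b then lam b else 0 := by
  let L : (A → ℝ) →ₗ[ℝ] (B → ℝ) →ₗ[ℝ] ℝ := LinearMap.mk₂ ℝ
    (fun μ lam => ∑ a, ∑ b, μ a * lam b * (if R a b then 1 else 0))
    (by intros; simp only [Pi.add_apply, add_mul, sum_add_distrib])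
    (by intros; simp only [Pi.smul_apply, smul_eq_mul, mul_sum, mul_assoc])
    (by intros; simp only [Pi.add_apply, mul_add, add_mul, sum_add_distrib])
    (by intros; simp only [Pi.smul_apply, smul_eq_mul, mul_sum]; congr; ext; congr; ext; ring)
  obtain ⟨a0⟩ := ‹Nonempty A›
  obtain ⟨b0⟩ := ‹Nonempty B›
  obtain ⟨μ, hμ, lam, hlam, hs⟩ := Sion.exists_isSaddlePointOn (X := stdSimplex ℝ A)
    (Y := stdSimplex ℝ B) (f := fun μ lam => L μ lam) ⟨_, single_mem_stdSimplex ℝ a0⟩
    (convex_stdSimplex ℝ A) (isCompact_stdSimplex ℝ A)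
    (fun y _ => (L.flip y).continuous_of_finiteDimensional.continuousOn.lowerSemicontinuousOn)
    (fun y _ => ((L.flip y).convexOn (convex_stdSimplex ℝ A)).quasiconvexOn)
    (convex_stdSimplex ℝ B) ⟨_, single_mem_stdSimplex ℝ b0⟩ (isCompact_stdSimplex ℝ B)
    (fun x _ => (L x).continuous_of_finiteDimensional.continuousOn.upperSemicontinuousOn)
    (fun x _ => ((L x).concaveOn (convex_stdSimplex ℝ B)).quasiconcaveOn)
  refine ⟨lam, hlam, fun a => ?_⟩
  obtain ⟨b, hb⟩ := h μ hμ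
  have := hs _ (single_mem_stdSimplex ℝ a) _ (single_mem_stdSimplex ℝ b)
  have e1 : L μ (Pi.single b 1) = ∑ a, if R a b then μ a else 0 := by
    simp only [L, LinearMap.mk₂_apply]
    refine sum_congr rfl fun a _ => ?_
    rw [sum_eq_single b] <;> simp +contextual
  have e2 : L (Pi.single a 1) lam = ∑ b, if R a b then lam b else 0 := by
    simp only [L, LinearMap.mk₂_apply]
    rw [sum_eq_single a] <;> simp +contextual
  linarith

theorem net {Y R : Type} [Fintype Y] (In : R → Y → Prop) (lam : Y → ℝ) (h0 : ∀ y, 0 ≤ lam y)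
    (h1 : ∑ y, lam y = 1) (β : ℝ) (hβ0 : 0 ≤ β) (hβ : ∀ r, β ≤ ∑ y, if In r y then lam y else 0)
    (m K : ℕ) (hK : ∀ (z : Fin m × Bool → Y) (F : Finset (Finset (Fin m × Bool))),
      (∀ T ∈ F, ∃ r, T = univ.filter (fun j => In r (z j))) → F.card ≤ K)
    (hm : (K : ℝ) < (1 + β) ^ m) : ∃ x : Fin m → Y, ∀ r, ∃ i, In r (x i) := by
  by_contra hc
  push Not at hc
  choose ρ hρ using hc
  set w : (Fin m → Y) → ℝ := fun x => ∏ i, lam (x i) with hw
  set F : (Fin m → Y) × (Fin m → Y) → ℝ :=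
    fun q => ∏ i, (if In (ρ q.1) (q.2 i) then 2 else 1) with hF
  have w0 : ∀ x, 0 ≤ w x := fun x => prod_nonneg fun i _ => h0 _
  have w1 : ∑ x, w x = 1 := by
    rw [← Fintype.prod_sum (fun (_ : Fin m) y => lam y)]; simp [h1]
  have s1 : ∀ x, (1 + β) ^ m ≤ ∑ y, w y * F (x, y) := by
    intro x
    simp only [hw, hF, ← prod_mul_distrib]
    rw [← Fintype.prod_sum (fun (_ : Fin m) y => lam y * (if In (ρ x) y then 2 else 1))]
    simp only [prod_const, card_univ, Fintype.card_fin]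
    refine pow_le_pow_left₀ (by linarith) ?_ _
    have : ∑ y, lam y * (if In (ρ x) y then 2 else 1) =
        ∑ y, lam y + ∑ y, if In (ρ x) y then lam y else 0 := by
      rw [← sum_add_distrib]
      exact sum_congr rfl fun y _ => by split_ifs <;> ring
    linarith [hβ (ρ x)]
  have s2 : (1 + β) ^ m ≤ ∑ q : (Fin m → Y) × (Fin m → Y), w q.1 * w q.2 * F q := by
    rw [Fintype.sum_prod_type]
    calc (1 + β) ^ m = ∑ x, w x * (1 + β) ^ m := by rw [← sum_mul, w1, one_mul]
      _ ≤ _ := sum_le_sum fun x _ => by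
        simp only [mul_assoc, ← mul_sum]
        exact mul_le_mul_of_nonneg_left (s1 x) (w0 x)
  let z : (Fin m → Y) × (Fin m → Y) → Fin m × Bool → Y :=
    fun q j => if j.2 then q.2 j.1 else q.1 j.1
  let sw : (Fin m → Bool) → (Fin m → Y) × (Fin m → Y) → (Fin m → Y) × (Fin m → Y) :=
    fun σ q => (fun i => z q (i, σ i), fun i => z q (i, !σ i))
  have inv : ∀ σ, Function.Involutive (sw σ) := by
    intro σ q
    ext i <;> simp only [sw, z] <;> cases σ i <;> simp
  have s3 : ∀ σ, ∑ q : (Fin m → Y) × (Fin m → Y), w q.1 * w q.2 * F q =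
      ∑ q : (Fin m → Y) × (Fin m → Y), w q.1 * w q.2 * F (sw σ q) := by
    intro σ
    rw [← Equiv.sum_comp (inv σ).toPerm]
    refine sum_congr rfl fun q _ => ?_
    simp only [Function.Involutive.coe_toPerm]
    congr 1
    simp only [hw, ← prod_mul_distrib, sw, z]
    exact prod_congr rfl fun i _ => by cases σ i <;> simp [mul_comm]
  have s4 : ∀ q, ∑ σ, F (sw σ q) ≤ K * 2 ^ m := by
    intro q
    let T : (Fin m → Bool) → Finset (Fin m × Bool) :=
      fun σ => univ.filter (fun j => In (ρ (sw σ q).1) (z q j))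
    let h : Finset (Fin m × Bool) → Fin m → Bool → ℝ :=
      fun T i b => if (i, b) ∈ T then 0 else if (i, !b) ∈ T then 2 else 1
    have hh0 : ∀ T i b, 0 ≤ h T i b := by
      intro T i b
      simp only [h]
      split_ifs <;> norm_num
    have hcard := hK (z q) (univ.image T) (by
      intro U hU
      obtain ⟨σ, -, rfl⟩ := mem_image.1 hU
      exact ⟨_, rfl⟩)
    calc ∑ σ, F (sw σ q) ≤ ∑ σ : Fin m → Bool, ∑ U ∈ univ.image T, ∏ i, h U i (σ i) := by
          refine sum_le_sum fun σ _ => ?_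
          refine le_trans (le_of_eq ?_) (single_le_sum (f := fun U => ∏ i, h U i (σ i))
            (fun U _ => prod_nonneg fun i _ => hh0 _ _ _) (mem_image_of_mem T (mem_univ σ)))
          refine prod_congr rfl fun i _ => ?_
          have := hρ (sw σ q).1 i
          simp only [h, T, mem_filter, mem_univ, true_and]
          rw [if_neg this]
      _ = ∑ U ∈ univ.image T, ∏ i, ∑ b, h U i b := by
          rw [sum_comm]
          exact sum_congr rfl fun U _ => (Fintype.prod_sum _).symm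
      _ ≤ ∑ U ∈ univ.image T, (2 : ℝ) ^ m := by
          refine sum_le_sum fun U _ => ?_
          refine le_trans (prod_le_prod (g := fun _ => 2)
            (fun i _ => sum_nonneg fun b _ => hh0 _ _ _) fun i _ => ?_) (by simp)
          simp only [h, Fintype.sum_bool, Bool.not_true, Bool.not_false]
          split_ifs <;> norm_num
      _ ≤ K * 2 ^ m := by
          rw [sum_const, nsmul_eq_mul]
          gcongr
  have s5 : (2 : ℝ) ^ m * (1 + β) ^ m ≤ K * 2 ^ m := by
    calc (2 : ℝ) ^ m * (1 + β) ^ m = ∑ _σ : Fin m → Bool, (1 + β) ^ m := by simp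
      _ ≤ ∑ σ : Fin m → Bool, ∑ q : (Fin m → Y) × (Fin m → Y), w q.1 * w q.2 * F (sw σ q) :=
          sum_le_sum fun σ _ => s3 σ ▸ s2
      _ = ∑ q : (Fin m → Y) × (Fin m → Y), w q.1 * w q.2 * ∑ σ, F (sw σ q) := by
          rw [sum_comm]; simp only [mul_sum]
      _ ≤ ∑ q : (Fin m → Y) × (Fin m → Y), w q.1 * w q.2 * (K * 2 ^ m) :=
          sum_le_sum fun q _ => mul_le_mul_of_nonneg_left (s4 q) (mul_nonneg (w0 _) (w0 _))
      _ = K * 2 ^ m := by
          rw [← sum_mul, Fintype.sum_prod_type]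
          simp only [← mul_sum, w1, mul_one, one_mul]
  have : (0 : ℝ) < 2 ^ m := by positivity
  nlinarith

theorem big_m {β : ℝ} (hβ : 0 < β) :
    ∃ m : ℕ, ((24 * (m * 2 + 1) ^ 23 : ℕ) : ℝ) < (1 + β) ^ m := by
  have h := tendsto_pow_const_div_const_pow_of_one_lt 23 (r := 1 + β) (by linarith)
  have h2 := (h.eventually (gt_mem_nhds (show (0 : ℝ) < 1 / (24 * 3 ^ 23) by positivity))).and
    (Filter.eventually_ge_atTop 1)
  obtain ⟨m, hm, hm1⟩ := h2.exists
  refine ⟨m, ?_⟩
  have hp : 0 < (1 + β) ^ m := by positivity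
  rw [div_lt_div_iff₀ hp (by positivity)] at hm
  have h1 : (1 : ℝ) ≤ m := by exact_mod_cast hm1
  have h3 : ((m : ℝ) * 2 + 1) ^ 23 ≤ (m * 3) ^ 23 := pow_le_pow_left₀ (by positivity) (by linarith) _
  push_cast
  rw [mul_pow] at h3
  linarith

end Pool.Agent.WkD
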