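import Pool.Agent.P.MP_7d2be5_co.Loc
import Pool.Agent.P.MP_7d2be5_co.Net

namespace Pool.Agent.WkD
open Finset
open scoped Classical

variable {X : Type} [PseudoMetricSpace X] {M δ : ℝ}

theorem one_sub_sum_le {ι : Type} (T : Finset ι) (w : ι → ℝ) (h0 : ∀ z ∈ T, 0 ≤ w z)
    (h1 : ∀ z ∈ T, w z ≤ 1) : 1 - ∑ z ∈ T, w z ≤ ∏ z ∈ T, (1 - w z) := by
  induction T using Finset.induction_on with
  | empty => simp
  | insert a T ha ih =>
    rw [sum_insert ha, prod_insert ha]
    have i := ih (fun z hz => h0 z (mem_insert_of_mem hz)) (fun z hz => h1 z (mem_insert_of_mem hz))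
    have a0 := h0 a (mem_insert_self _ _)
    have a1 := h1 a (mem_insert_self _ _)
    have s0 : 0 ≤ ∑ z ∈ T, w z := sum_nonneg fun z hz => h0 z (mem_insert_of_mem hz)
    nlinarith [mul_le_mul_of_nonneg_left i (sub_nonneg.2 a1)]

theorem mid (π : Pl X M) (hM : 2 * δ < M) {s t : X} (h : dist s t ≤ 2 * δ) :
    ∃ x, dist x s ≤ δ ∧ dist x t ≤ δ := by
  obtain ⟨g, g0, g1, hg⟩ := π.geo s t (by linarith)
  have hD : 0 ≤ dist s t := dist_nonneg
  have hm : dist s t / 2 ∈ Set.Icc 0 (dist s t) := ⟨by linarith, by linarith⟩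
  have a := hg _ hm 0 ⟨le_rfl, hD⟩
  have b := hg _ hm _ ⟨hD, le_rfl⟩
  rw [g0, abs_of_nonneg (by linarith)] at a
  rw [g1, abs_of_nonpos (by linarith)] at b
  exact ⟨g (dist s t / 2), by linarith, by linarith⟩

theorem heavy (π : Pl X M) (hδ : 0 < δ) (hM : 2 * δ < M) {k : ℕ} (hk : 0 < k) (S : Finset X)
    (hS : ∀ Q ⊆ S, Sep δ Q → Q.card ≤ k) (μ : X → ℝ) (h0 : ∀ s ∈ S, 0 ≤ μ s)
    (h1 : ∑ s ∈ S, μ s = 1) :
    ∃ x, 1 / (400 * k) ≤ ∑ s ∈ S.filter (fun s => dist x s ≤ δ), μ s := by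
  by_contra hc
  push Not at hc
  set β : ℝ := 1 / (400 * k) with hβ
  have hk' : (0 : ℝ) < k := by exact_mod_cast hk
  have hβ0 : 0 < β := by positivity
  have hβk : β * k = 1 / 400 := by rw [hβ]; field_simp
  have hat : ∀ s ∈ S, μ s ≤ β := fun s hs =>
    (single_le_sum (fun z hz => h0 z (mem_filter.1 hz).1)
      (mem_filter.2 ⟨hs, by simpa using hδ.le⟩)).trans (hc s).le
  have : ∀ e : X × X, ∃ x, dist e.1 e.2 ≤ 2 * δ → dist x e.1 ≤ δ ∧ dist x e.2 ≤ δ := by
    intro e
    by_cases h : dist e.1 e.2 ≤ 2 * δ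
    · obtain ⟨x, hx⟩ := mid π hM h
      exact ⟨x, fun _ => hx⟩
    · exact ⟨e.1, fun h' => (h h').elim⟩
  choose c hcm using this
  set G : X → X → Prop := fun s t => s ≠ t ∧ dist s t ≤ 2 * δ with hG
  have hw0 : ∀ z ∈ S, 0 ≤ μ z / (2 * β) := fun z hz => div_nonneg (h0 z hz) (by positivity)
  have hw1 : ∀ z ∈ S, μ z / (2 * β) ≤ 1 := fun z hz => by
    rw [div_le_one (by positivity)]; linarith [hat z hz]
  have hs := samp π id S (ed G S)
    (fun e => ((S.filter (fun s => dist (c e) s ≤ δ)).erase e.1).erase e.2)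
    (fun z => μ z / (2 * β)) hw0 hw1 (by
      intro e he
      obtain ⟨a1, a2, a3, a4⟩ := mem_ed.1 he
      obtain ⟨b1, b2⟩ := hcm e a4
      refine ⟨a3, a1, a2, (erase_subset _ _).trans ((erase_subset _ _).trans (filter_subset _ _)),
        by simp, by simp, c e, by simp only [id]; linarith, by simp only [id]; linarith,
        fun z hz z1 z2 z3 => ?_⟩
      have : δ < dist (c e) z := by
        by_contra h
        exact z3 (mem_erase.2 ⟨z2, mem_erase.2 ⟨z1, mem_filter.2 ⟨hz, not_lt.1 h⟩⟩⟩)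
      exact ⟨key_lt_of (lt_of_le_of_lt b1 this), key_lt_of (lt_of_le_of_lt b2 this)⟩)
  have hs2 : ∑ e ∈ ed G S, μ e.1 * μ e.2 ≤ 88 * β := by
    have e1 : ∑ e ∈ ed G S, μ e.1 * μ e.2 / (8 * β ^ 2) ≤ 22 * ∑ x ∈ S, μ x / (2 * β) := by
      refine le_trans (sum_le_sum fun e he => ?_) hs
      obtain ⟨a1, a2, -⟩ := mem_ed.1 he
      have sub : ((S.filter (fun s => dist (c e) s ≤ δ)).erase e.1).erase e.2 ⊆
          S.filter (fun s => dist (c e) s ≤ δ) := (erase_subset _ _).trans (erase_subset _ _)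
      have b1 := one_sub_sum_le _ (fun z => μ z / (2 * β))
        (fun z hz => hw0 z (mem_filter.1 (sub hz)).1) (fun z hz => hw1 z (mem_filter.1 (sub hz)).1)
      have b2 : ∑ z ∈ ((S.filter (fun s => dist (c e) s ≤ δ)).erase e.1).erase e.2,
          μ z / (2 * β) ≤ 1 / 2 := by
        rw [← sum_div, div_le_iff₀ (by positivity)]
        have := sum_le_sum_of_subset_of_nonneg (f := μ) sub
          (fun z hz _ => h0 z (mem_filter.1 hz).1)
        linarith [hc (c e)]
      calc μ e.1 * μ e.2 / (8 * β ^ 2) = μ e.1 / (2 * β) * (μ e.2 / (2 * β)) * (1 / 2) := by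
            field_simp; ring
        _ ≤ _ := mul_le_mul_of_nonneg_left (by linarith) (mul_nonneg (hw0 _ a1) (hw0 _ a2))
    rw [← sum_div, ← sum_div, h1, div_le_iff₀ (by positivity)] at e1
    calc _ ≤ _ := e1
      _ = 88 * β := by field_simp; ring
  set nb : X → ℝ := fun s => ∑ t ∈ S.filter (fun t => dist s t ≤ 2 * δ), μ t with hnb
  have nb0 : ∀ s, 0 ≤ nb s := fun s => sum_nonneg fun z hz => h0 z (mem_filter.1 hz).1
  have hα : ∑ s ∈ S, μ s * nb s ≤ 89 * β := by
    have e1 : ∑ e ∈ ed G S, μ e.1 * μ e.2 = ∑ s ∈ S, μ s * ∑ t ∈ S.filter (G s), μ t := by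
      rw [ed, sum_filter, sum_product]
      refine sum_congr rfl fun s _ => ?_
      rw [sum_filter, mul_sum]
      exact sum_congr rfl fun t _ => by split_ifs <;> simp
    have e2 : ∀ s ∈ S, nb s ≤ β + ∑ t ∈ S.filter (G s), μ t := by
      intro s hs
      have hm : s ∈ S.filter (fun t => dist s t ≤ 2 * δ) :=
        mem_filter.2 ⟨hs, by rw [dist_self]; linarith⟩
      have : S.filter (G s) = (S.filter (fun t => dist s t ≤ 2 * δ)).erase s := by
        ext t
        simp only [mem_filter, mem_erase, hG, ne_comm (a := s)]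
        tauto
      rw [this]
      have := add_sum_erase _ μ hm
      linarith [hat s hs]
    calc ∑ s ∈ S, μ s * nb s ≤ ∑ s ∈ S, μ s * (β + ∑ t ∈ S.filter (G s), μ t) :=
          sum_le_sum fun s hs => mul_le_mul_of_nonneg_left (e2 s hs) (h0 s hs)
      _ = β + ∑ e ∈ ed G S, μ e.1 * μ e.2 := by
          simp only [mul_add, sum_add_distrib, ← sum_mul, h1, one_mul, e1]
      _ ≤ 89 * β := by linarith
  set L := S.filter (fun s => nb s ≤ 178 * β) with hL
  have hL1 : ∑ s ∈ S.filter (fun s => ¬ nb s ≤ 178 * β), μ s ≤ 1 / 2 := by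
    have : ∑ s ∈ S.filter (fun s => ¬ nb s ≤ 178 * β), μ s * (178 * β) ≤ 89 * β := by
      refine le_trans (sum_le_sum fun s hs => mul_le_mul_of_nonneg_left
        (not_le.1 (mem_filter.1 hs).2).le (h0 s (mem_filter.1 hs).1)) (le_trans ?_ hα)
      exact sum_le_sum_of_subset_of_nonneg (filter_subset _ _)
        fun s hs _ => mul_nonneg (h0 s hs) (nb0 s)
    rw [← sum_mul] at this
    nlinarith
  have hL2 := sum_filter_add_sum_filter_not S (fun s => nb s ≤ 178 * β) μ
  obtain ⟨Q, hQ, hmax⟩ := exists_max_image (L.powerset.filter (Sep δ)) card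
    ⟨∅, by simp [Sep]⟩
  obtain ⟨hQL, hQ⟩ := mem_filter.1 hQ
  have hQL := mem_powerset.1 hQL
  have hcov : ∀ s ∈ L, ∃ q ∈ Q, dist q s ≤ 2 * δ := by
    intro s hs
    by_contra h
    push Not at h
    have hsQ : s ∉ Q := fun h' => by
      have := h s h'
      rw [dist_self] at this
      linarith
    have := hmax (insert s Q) (mem_filter.2 ⟨mem_powerset.2 (insert_subset hs hQL), by
      intro x hx y hy hxy
      rcases mem_insert.1 hx with ex | hx <;> rcases mem_insert.1 hy with ey | hy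
      · exact (hxy (ex.trans ey.symm)).elim
      · rw [ex, dist_comm]; exact h y hy
      · rw [ey]; exact h x hx
      · exact hQ x hx y hy hxy⟩)
    rw [card_insert_of_notMem hsQ] at this
    omega
  have hL3 : ∑ s ∈ L, μ s ≤ k * (178 * β) := by
    calc ∑ s ∈ L, μ s ≤ ∑ s ∈ S, ∑ q ∈ Q, (if dist q s ≤ 2 * δ then μ s else 0) := by
          refine le_trans (sum_le_sum fun s hs => ?_) (sum_le_sum_of_subset_of_nonneg
            (filter_subset _ _) fun s hs _ => sum_nonneg fun q _ => by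
              split_ifs; exacts [h0 s hs, le_rfl])
          obtain ⟨q, hq, hd⟩ := hcov s hs
          refine le_trans (by rw [if_pos hd]) (single_le_sum
            (f := fun q => if dist q s ≤ 2 * δ then μ s else 0) (fun q _ => ?_) hq)
          split_ifs; exacts [h0 s (mem_filter.1 hs).1, le_rfl]
      _ = ∑ q ∈ Q, nb q := by
          rw [sum_comm]
          exact sum_congr rfl fun q _ => (sum_filter _ _).symm
      _ ≤ ∑ q ∈ Q, 178 * β := sum_le_sum fun q hq => (mem_filter.1 (hQL hq)).2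
      _ ≤ k * (178 * β) := by
          rw [sum_const, nsmul_eq_mul]
          have : (Q.card : ℝ) ≤ k := by
            exact_mod_cast hS Q (hQL.trans (filter_subset _ _)) hQ
          gcongr
  nlinarith

theorem traces (π : Pl X M) (hM : δ < M) {J : Type} [Fintype J] [DecidableEq J] (l : J → X)
    (F : Finset (Finset J)) (hF : ∀ T ∈ F, ∃ c, ∀ j, j ∈ T ↔ dist c (l j) ≤ δ) :
    F.card ≤ 24 * (Fintype.card J + 1) ^ 23 := by
  have hvc : F.vcDim ≤ 23 := by
    refine Finset.sup_le fun s hs => ?_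
    have hs := mem_shatterer.1 hs
    have h1 := del π l s
    have h2 : s.offDiag ⊆ ed (DE M l s) s := by
      rintro ⟨x, y⟩ he
      obtain ⟨a1, a2, a3⟩ := mem_offDiag.1 he
      obtain ⟨T, hT, hTs⟩ := hs (t := {x, y}) (insert_subset a1 (singleton_subset_iff.2 a2))
      obtain ⟨c, hc⟩ := hF T hT
      have hx : dist c (l x) ≤ δ := (hc x).1 (mem_inter.1 (hTs ▸ by simp : x ∈ s ∩ T)).2
      have hy : dist c (l y) ≤ δ := (hc y).1 (mem_inter.1 (hTs ▸ by simp : y ∈ s ∩ T)).2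
      refine mem_ed.2 ⟨a1, a2, a3, a1, a2, c, by linarith, by linarith, fun z hz z1 z2 => ?_⟩
      have : δ < dist c (l z) := by
        by_contra h
        have : z ∈ s ∩ T := mem_inter.2 ⟨hz, (hc z).2 (not_lt.1 h)⟩
        rw [hTs] at this
        simp only [mem_insert, mem_singleton] at this
        tauto
      exact ⟨key_lt_of (lt_of_le_of_lt hx this), key_lt_of (lt_of_le_of_lt hy this)⟩
    have h3 := card_le_card h2
    rw [offDiag_card] at h3
    by_contra h
    have : 24 * s.card ≤ s.card * s.card := Nat.mul_le_mul_right _ (by omega)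
    omega
  refine (card_le_card_shatterer F).trans (card_shatterer_le_sum_vcDim.trans ?_)
  refine (sum_le_card_nsmul _ _ ((Fintype.card J + 1) ^ 23) fun k hk => ?_).trans ?_
  · have hk : k ≤ 23 := (mem_Iic.1 hk).trans hvc
    exact (Nat.choose_le_pow _ _).trans ((Nat.pow_le_pow_left (Nat.le_succ _) _).trans
      (Nat.pow_le_pow_right (Nat.succ_pos _) hk))
  · rw [Nat.card_Iic, smul_eq_mul]
    exact Nat.mul_le_mul_right _ (by omega)

theorem cover (k : ℕ) (hk : 0 < k) : ∃ m : ℕ, ∀ (X : Type) [PseudoMetricSpace X] (M δ : ℝ)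
    (_ : Pl X M), 0 < δ → 2 * δ < M → ∀ S : Finset X, S.Nonempty →
    (∀ Q ⊆ S, Sep δ Q → Q.card ≤ k) → ∃ x : Fin m → X, ∀ s ∈ S, ∃ i, dist (x i) s ≤ δ := by
  have hβ0 : (0 : ℝ) < 1 / (400 * k) := by positivity
  obtain ⟨m, hm⟩ := big_m hβ0
  refine ⟨m, fun X _ M δ π hδ hM S hne hS => ?_⟩
  let Y := S.powerset.filter (fun T => ∃ x, T = S.filter (fun s => dist x s ≤ δ))
  have hY : ∀ x, S.filter (fun s => dist x s ≤ δ) ∈ Y := fun x =>
    mem_filter.2 ⟨mem_powerset.2 (filter_subset _ _), x, rfl⟩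
  have : ∀ T : Y, ∃ x, T.1 = S.filter (fun s => dist x s ≤ δ) := fun T => (mem_filter.1 T.2).2
  choose c hc using this
  obtain ⟨s0, hs0⟩ := hne
  have : Nonempty S := ⟨⟨s0, hs0⟩⟩
  have : Nonempty Y := ⟨⟨_, hY s0⟩⟩
  obtain ⟨lam, hlam, hg⟩ := game (A := S) (B := Y) (fun a T => a.1 ∈ T.1) (1 / (400 * k)) (by
    intro μ hμ
    obtain ⟨x, hx⟩ := heavy π hδ hM hk S hS (fun s => if h : s ∈ S then μ ⟨s, h⟩ else 0)
      (fun s hs => by simpa [hs] using hμ.1 ⟨s, hs⟩) (by
        rw [← hμ.2, ← sum_coe_sort]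
        exact sum_congr rfl fun a _ => by simp)
    refine ⟨⟨_, hY x⟩, hx.trans (le_of_eq ?_)⟩
    rw [sum_filter, ← sum_coe_sort]
    exact sum_congr rfl fun a _ => by simp)
  obtain ⟨x, hx⟩ := net (Y := Y) (R := S) (fun a T => a.1 ∈ T.1) lam hlam.1 hlam.2 _ hβ0.le hg m _
    (fun z F hF => by
      have := traces π (δ := δ) (by linarith) (fun j => c (z j)) F fun T hT => by
        obtain ⟨r, rfl⟩ := hF T hT
        refine ⟨r.1, fun j => ?_⟩
        simp only [mem_filter, mem_univ, true_and]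
        rw [hc (z j), mem_filter, dist_comm]
        simp
      simpa using this) hm
  refine ⟨fun i => c (x i), fun s hs => ?_⟩
  obtain ⟨i, hi⟩ := hx ⟨s, hs⟩
  rw [hc (x i)] at hi
  exact ⟨i, (mem_filter.1 hi).2⟩

end Pool.Agent.WkD
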