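import Mathlib

namespace Pool.Agent.WkD

/-- The intrinsic distance: infimum of the lengths of the paths from `x` to `y`. -/
noncomputable def pathDist {E : Type} [MetricSpace E] (x y : E) : ENNReal :=
  ⨅ γ : Path x y, eVariationOn γ Set.univ

end Pool.Agent.WkD
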