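import Pool.Agent.P.MP_7d2be5_co.Sparse

namespace Pool.Agent.WkD
open Finset
open scoped Classical

variable {ι : Type} {X : Type} [PseudoMetricSpace X] {M : ℝ}

/-- order of the indices as seen from `p`, ties broken once and for all -/
noncomputable def key (l : ι → X) (p : X) (x : ι) : ℝ ×ₗ Cardinal.{0} :=
  toLex (dist p (l x), embeddingToCardinal x)

theorem key_lt {l : ι → X} {p : X} {x z : ι} : key l p x < key l p z ↔
    dist p (l x) < dist p (l z) ∨
      (dist p (l x) = dist p (l z) ∧ embeddingToCardinal x < embeddingToCardinal z) :=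
  Prod.Lex.toLex_lt_toLex

theorem key_lt_of {l : ι → X} {p : X} {x z : ι} (h : dist p (l x) < dist p (l z)) :
    key l p x < key l p z := key_lt.2 (.inl h)

theorem le_of_key_lt {l : ι → X} {p : X} {x z : ι} (h : key l p x < key l p z) :
    dist p (l x) ≤ dist p (l z) := by
  rcases key_lt.1 h with h | h
  exacts [h.le, h.1.le]

theorem key_inj (l : ι → X) (p : X) : Function.Injective (key l p) := by
  intro x z h
  exact embeddingToCardinal.injective (congrArg (fun t => (ofLex t).2) h)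

theorem cross {p q x z m : X} (h1 : dist p m + dist m x = dist p x)
    (h2 : dist q m + dist m z = dist q z) : dist p z + dist q x ≤ dist p x + dist q z := by
  have := dist_triangle p m z
  have := dist_triangle q m x
  linarith

theorem cross_key {l : ι → X} {p q : X} {x z : ι} (h1 : key l p x < key l p z)
    (h2 : key l q z < key l q x) :
    Disjoint {m | dist p m + dist m (l x) = dist p (l x)}
      {m | dist q m + dist m (l z) = dist q (l z)} := by
  rw [Set.disjoint_left]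
  intro m a b
  have c := cross a b
  rcases key_lt.1 h1 with h1 | h1 <;> rcases key_lt.1 h2 with h2 | h2
  · linarith
  · linarith [h2.1]
  · linarith [h1.1]
  · exact lt_asymm h1.2 h2.2

/-- Delaunay edges of `A` -/
def DE (M : ℝ) (l : ι → X) (A : Finset ι) (x y : ι) : Prop :=
  x ≠ y ∧ x ∈ A ∧ y ∈ A ∧ ∃ p, dist p (l x) < M ∧ dist p (l y) < M ∧
    ∀ z ∈ A, z ≠ x → z ≠ y → key l p x < key l p z ∧ key l p y < key l p z

theorem del (π : Pl X M) (l : ι → X) (A : Finset ι) : (ed (DE M l A) A).card ≤ 22 * A.card := by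
  refine Drawn.sparse (π := π) (l := l) ?_ (fun x h => h.1 rfl) ?_ A
  · rintro x y ⟨h1, h2, h3, p, h4, h5, h6⟩
    exact ⟨h1.symm, h3, h2, p, h5, h4, fun z hz a b => (h6 z hz b a).symm⟩
  · have : ∀ x y, ∃ p : X, DE M l A x y → dist p (l x) < M ∧ dist p (l y) < M ∧
        ∀ z ∈ A, z ≠ x → z ≠ y → key l p x < key l p z ∧ key l p y < key l p z := by
      intro x y
      by_cases h : DE M l A x y
      · obtain ⟨p, hp⟩ := h.2.2.2
        exact ⟨p, fun _ => hp⟩
      · exact ⟨l x, fun h' => (h h').elim⟩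
    choose p hp using this
    refine ⟨fun x y => {m | dist (p x y) m + dist m (l x) = dist (p x y) (l x)} ∪
      {m | dist (p x y) m + dist m (l y) = dist (p x y) (l y)}, ?_, ?_⟩
    · intro x y h
      obtain ⟨a, b, -⟩ := hp x y h
      exact π.trans (π.mono Set.subset_union_left (π.symm (π.seg _ _ a)))
        (π.mono Set.subset_union_right (π.seg _ _ b))
    · intro x y z w h h' a1 a2 a3 a4
      obtain ⟨-, -, c⟩ := hp x y h
      obtain ⟨-, -, c'⟩ := hp z w h'
      have cz := c z h'.2.1 a1.symm a3.symm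
      have cw := c w h'.2.2.1 a2.symm a4.symm
      have cx := c' x h.2.1 a1 a2
      have cy := c' y h.2.2.1 a3 a4
      simp only [Set.disjoint_union_left, Set.disjoint_union_right]
      exact ⟨⟨cross_key cz.1 cx.1, cross_key cz.2 cy.1⟩, cross_key cw.1 cx.2, cross_key cw.2 cy.2⟩

theorem prob (B I T : Finset ι) (w : ι → ℝ) (hI : I ⊆ B) (hT : T ⊆ B) (hd : Disjoint I T) :
    ∑ A ∈ B.powerset, (if I ⊆ A ∧ Disjoint A T then (∏ z ∈ A, w z) * ∏ z ∈ B \ A, (1 - w z) else 0)
      = (∏ z ∈ I, w z) * ∏ z ∈ T, (1 - w z) := by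
  have h := prod_add (fun z => if z ∈ T then 0 else w z) (fun z => if z ∈ I then 0 else 1 - w z) B
  have h2 : ∏ z ∈ B, ((if z ∈ T then 0 else w z) + (if z ∈ I then 0 else 1 - w z)) =
      (∏ z ∈ I, w z) * ∏ z ∈ T, (1 - w z) := by
    rw [← prod_subset (union_subset hI hT), prod_union hd]
    · congr 1
      · exact prod_congr rfl fun z hz => by simp [hz, disjoint_left.1 hd hz]
      · exact prod_congr rfl fun z hz => by simp [hz, disjoint_right.1 hd hz]
    · intro z _ hz
      rw [mem_union, not_or] at hz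
      simp [hz.1, hz.2]
  rw [← h2, h]
  refine sum_congr rfl fun A hA => ?_
  split_ifs with hc
  · congr 1
    · exact prod_congr rfl fun z hz => by simp [disjoint_left.1 hc.2 hz]
    · exact prod_congr rfl fun z hz => by
        have : z ∉ I := fun h => (mem_sdiff.1 hz).2 (hc.1 h)
        simp [this]
  · rw [not_and_or] at hc
    rcases hc with hc | hc
    · obtain ⟨z, hz, hzA⟩ := not_subset.1 hc
      rw [prod_eq_zero (i := z) (s := B \ A) (mem_sdiff.2 ⟨hI hz, hzA⟩) (by simp [hz]), mul_zero]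
    · obtain ⟨z, hz, hzT⟩ := not_disjoint_iff.1 hc
      rw [prod_eq_zero (i := z) (s := A) hz (by simp [hzT]), zero_mul]

theorem samp (π : Pl X M) (l : ι → X) (B : Finset ι) (E : Finset (ι × ι)) (T : ι × ι → Finset ι)
    (w : ι → ℝ) (h0 : ∀ z ∈ B, 0 ≤ w z) (h1 : ∀ z ∈ B, w z ≤ 1)
    (hE : ∀ e ∈ E, e.1 ≠ e.2 ∧ e.1 ∈ B ∧ e.2 ∈ B ∧ T e ⊆ B ∧ e.1 ∉ T e ∧ e.2 ∉ T e ∧
      ∃ p, dist p (l e.1) < M ∧ dist p (l e.2) < M ∧ ∀ z ∈ B, z ≠ e.1 → z ≠ e.2 → z ∉ T e →
        key l p e.1 < key l p z ∧ key l p e.2 < key l p z) :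
    ∑ e ∈ E, w e.1 * w e.2 * ∏ z ∈ T e, (1 - w z) ≤ 22 * ∑ x ∈ B, w x := by
  set P : Finset ι → ℝ := fun A => (∏ z ∈ A, w z) * ∏ z ∈ B \ A, (1 - w z) with hP
  have hP0 : ∀ A ∈ B.powerset, 0 ≤ P A := fun A hA =>
    mul_nonneg (prod_nonneg fun z hz => h0 z (mem_powerset.1 hA hz))
      (prod_nonneg fun z hz => sub_nonneg.2 (h1 z (mem_sdiff.1 hz).1))
  have e1 : ∑ e ∈ E, w e.1 * w e.2 * ∏ z ∈ T e, (1 - w z) =
      ∑ A ∈ B.powerset, ∑ e ∈ E, (if {e.1, e.2} ⊆ A ∧ Disjoint A (T e) then P A else 0) := by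
    rw [sum_comm]
    refine sum_congr rfl fun e he => ?_
    obtain ⟨a1, a2, a3, a4, a5, a6, -⟩ := hE e he
    rw [prob B {e.1, e.2} (T e) w (by simp [insert_subset_iff, a2, a3]) a4 (by simp [a5, a6]),
      prod_pair a1]
  have e2 : ∑ x ∈ B, w x = ∑ A ∈ B.powerset, (A.card : ℝ) * P A := by
    have : ∀ x ∈ B, w x = ∑ A ∈ B.powerset, (if x ∈ A then P A else 0) := by
      intro x hx
      have := prob B {x} ∅ w (by simpa using hx) (by simp) (by simp)
      simpa using this.symm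
    rw [sum_congr rfl this, sum_comm]
    refine sum_congr rfl fun A hA => ?_
    rw [← sum_filter, sum_const, nsmul_eq_mul, filter_mem_eq_inter,
      inter_eq_right.2 (mem_powerset.1 hA)]
  rw [e1, e2, mul_sum]
  refine sum_le_sum fun A hA => ?_
  rw [← sum_filter, sum_const, nsmul_eq_mul, ← mul_assoc (22 : ℝ)]
  refine mul_le_mul_of_nonneg_right ?_ (hP0 A hA)
  have : (E.filter (fun e => {e.1, e.2} ⊆ A ∧ Disjoint A (T e))).card ≤ 22 * A.card := by
    refine le_trans (card_le_card fun e he => ?_) (del π l A)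
    obtain ⟨he, hs, hd⟩ := mem_filter.1 he
    obtain ⟨a1, a2, a3, a4, a5, a6, p, b1, b2, b3⟩ := hE e he
    have c1 : e.1 ∈ A := hs (by simp)
    have c2 : e.2 ∈ A := hs (by simp)
    exact mem_ed.2 ⟨c1, c2, a1, c1, c2, p, b1, b2, fun z hz d1 d2 =>
      b3 z (mem_powerset.1 hA hz) d1 d2 (disjoint_left.1 hd hz)⟩
  exact_mod_cast this

end Pool.Agent.WkD
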