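import Pool.Agent.P.MP_7d2be5_co.Defs

namespace Pool.Agent.WkD
open Set Filter Topology

variable {E : Type} [MetricSpace E]

/-- a 1-Lipschitz curve on `[0, L]` from `x` to `y` -/
def Lip (x y : E) (L : ℝ) : Prop :=
  ∃ g : ℝ → E, g 0 = x ∧ g L = y ∧ ∀ s ∈ Icc 0 L, ∀ t ∈ Icc 0 L, dist (g s) (g t) ≤ |s - t|

theorem lip_of_path {x y : E} (γ : Path x y) {L : ℝ} (hL : 0 ≤ L)
    (h : eVariationOn γ univ ≤ ENNReal.ofReal L) : Lip x y L := by
  have hb : BoundedVariationOn γ univ := ne_top_of_le_ne_top ENNReal.ofReal_ne_top h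
  have hl := hb.locallyBoundedVariationOn
  set v := variationOnFromTo γ univ 0 with hv
  have sub : ∀ a b, v b - v a = variationOnFromTo γ univ a b := fun a b => by
    have := variationOnFromTo.add hl (mem_univ 0) (mem_univ a) (mem_univ b)
    simp only [hv]; linarith
  have key0 : ∀ a b, a ≤ b → dist (γ a) (γ b) ≤ v b - v a := fun a b hab => by
    rw [sub, variationOnFromTo.eq_of_le _ _ hab]
    exact (hb.mono inter_subset_left).dist_le ⟨mem_univ _, le_rfl, hab⟩ ⟨mem_univ _, hab, le_rfl⟩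
  have key : ∀ a b, dist (γ a) (γ b) ≤ |v a - v b| := fun a b => by
    rcases le_total a b with hab | hab
    · exact (key0 a b hab).trans (by rw [abs_sub_comm]; exact le_abs_self _)
    · rw [dist_comm]; exact (key0 b a hab).trans (le_abs_self _)
  have cont : Continuous v := by
    rw [continuous_iff_continuousAt]
    intro a
    have t1 := (ENNReal.tendsto_toReal ENNReal.zero_ne_top).comp
      (hb.tendsto_eVariationOn_Icc_zero_left (x := a) γ.continuous.continuousWithinAt)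
    have t2 := (ENNReal.tendsto_toReal ENNReal.zero_ne_top).comp
      (hb.tendsto_eVariationOn_Icc_zero_right a γ.continuous.continuousWithinAt)
    have t3 := t1.add t2
    rw [nhdsWithin_univ, ENNReal.toReal_zero, add_zero] at t3
    rw [ContinuousAt, tendsto_iff_dist_tendsto_zero]
    refine squeeze_zero (fun _ => dist_nonneg) (fun b => ?_) t3
    simp only [Function.comp, Real.dist_eq, sub]
    rcases le_total a b with hab | hab
    · rw [variationOnFromTo.eq_of_le _ _ hab, abs_of_nonneg ENNReal.toReal_nonneg]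
      exact le_add_of_nonneg_left ENNReal.toReal_nonneg
    · rw [variationOnFromTo.eq_of_ge _ _ hab, abs_neg, abs_of_nonneg ENNReal.toReal_nonneg]
      exact le_add_of_nonneg_right ENNReal.toReal_nonneg
  have v0 : v 0 = 0 := variationOnFromTo.self _ _ _
  have v1 : v 1 ≤ L := by
    rw [hv, variationOnFromTo.eq_of_le _ _ zero_le_one]
    exact ENNReal.toReal_le_of_le_ofReal hL ((eVariationOn.mono _ inter_subset_left).trans h)
  have v10 : 0 ≤ v 1 := variationOnFromTo.nonneg_of_le _ _ zero_le_one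
  have : ∀ s : ℝ, ∃ t, v t = max 0 (min s (v 1)) := fun s =>
    intermediate_value_univ 0 1 cont ⟨by rw [v0]; exact le_max_left _ _,
      max_le v10 (min_le_right _ _)⟩
  choose τ hτ using this
  refine ⟨fun s => γ (τ s), ?_, ?_, fun s hs t ht => (key _ _).trans ?_⟩
  · have := key (τ 0) 0
    rw [hτ, v0, min_eq_left v10, max_self, sub_zero, abs_zero, γ.source] at this
    exact dist_le_zero.1 this
  · have := key (τ L) 1
    rw [hτ, min_eq_right v1, max_eq_right v10, sub_self, abs_zero, γ.target] at this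
    exact dist_le_zero.1 this
  · rw [hτ, hτ, max_eq_right (le_min hs.1 v10), max_eq_right (le_min ht.1 v10)]
    simpa using abs_min_sub_min_le_max s (v 1) t (v 1)

theorem Lip.cont {g : ℝ → E} {L : ℝ}
    (hg : ∀ s ∈ Icc 0 L, ∀ t ∈ Icc 0 L, dist (g s) (g t) ≤ |s - t|) :
    LipschitzOnWith 1 g (Icc 0 L) :=
  LipschitzOnWith.of_dist_le_mul fun s hs t ht => by simpa [Real.dist_eq] using hg s hs t ht

theorem Lip.le {x y : E} {L : ℝ} (hL : 0 ≤ L) (h : Lip x y L) :
    pathDist x y ≤ ENNReal.ofReal L := by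
  obtain ⟨g, g0, g1, hg⟩ := h
  have hm : MapsTo (fun t : unitInterval => L * t) univ (Icc 0 L) := fun t _ =>
    ⟨mul_nonneg hL t.2.1, mul_le_of_le_one_right hL t.2.2⟩
  have hc : Continuous (g ∘ fun t : unitInterval => L * t) :=
    (Lip.cont hg).continuousOn.comp_continuous (by fun_prop) fun t => hm (mem_univ t)
  refine iInf_le_of_le ⟨⟨_, hc⟩, by simpa using g0, by simpa using g1⟩ ?_
  refine ((Lip.cont hg).comp_eVariationOn_le hm).trans ?_
  have mono : MonotoneOn (fun t : unitInterval => L * t) univ := fun a _ b _ hab =>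
    mul_le_mul_of_nonneg_left hab hL
  have := (mono.eVariationOn_eq (mem_univ 0) (mem_univ 1)).le
  have e : (univ ∩ Icc 0 1 : Set unitInterval) = univ :=
    eq_univ_of_forall fun t => ⟨mem_univ _, t.2.1, t.2.2⟩
  simpa [e] using this

theorem lip_limit [CompactSpace E] {x y : E} {L : ℝ} (hL : 0 ≤ L) {xs : ℕ → E} {Ls : ℕ → ℝ}
    (hx : Tendsto xs atTop (𝓝 x)) (hLs : Tendsto Ls atTop (𝓝 L)) (hle : ∀ n, L ≤ Ls n)
    (h : ∀ n, Lip (xs n) y (Ls n)) : Lip x y L := by
  choose g g0 g1 hg using h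
  have hU : (hyperfilter ℕ : Filter ℕ) ≤ atTop := Nat.hyperfilter_le_atTop
  have : ∀ s, ∃ a, Tendsto (fun n => g n s) (hyperfilter ℕ) (𝓝 a) := fun s => by
    obtain ⟨a, -, ha⟩ := isCompact_univ.ultrafilter_le_nhds
      ((hyperfilter ℕ).map fun n => g n s) (by simp)
    exact ⟨a, ha⟩
  choose f hf using this
  refine ⟨f, ?_, ?_, fun s hs t ht => ?_⟩
  · exact tendsto_nhds_unique (hf 0) (by simpa only [g0] using hx.mono_left hU)
  · have t1 : Tendsto (fun n => dist (g n L) y) (hyperfilter ℕ) (𝓝 (dist (f L) y)) :=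
      (hf L).dist tendsto_const_nhds
    have t2 : Tendsto (fun n => Ls n - L) (hyperfilter ℕ) (𝓝 (L - L)) :=
      (hLs.mono_left hU).sub_const L
    have := le_of_tendsto_of_tendsto' t1 t2 fun n => by
      have := hg n L ⟨hL, hle n⟩ (Ls n) ⟨hL.trans (hle n), le_rfl⟩
      rwa [g1, abs_sub_comm, abs_of_nonneg (sub_nonneg.2 (hle n))] at this
    rw [sub_self] at this
    exact dist_le_zero.1 this
  · exact le_of_tendsto' ((hf s).dist (hf t)) fun n =>
      hg n s ⟨hs.1, hs.2.trans (hle n)⟩ t ⟨ht.1, ht.2.trans (hle n)⟩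

theorem lip_of_le [CompactSpace E] {x y : E} {L : ℝ} (hL : 0 ≤ L)
    (h : pathDist x y ≤ ENNReal.ofReal L) : Lip x y L := by
  refine lip_limit hL (xs := fun _ => x) (Ls := fun n => L + 1 / ((n : ℝ) + 1)) tendsto_const_nhds
    (by simpa using tendsto_one_div_add_atTop_nhds_zero_nat.const_add L)
    (fun n => le_add_of_nonneg_right (by positivity)) fun n => ?_
  have hp : (0 : ℝ) < 1 / ((n : ℝ) + 1) := by positivity
  have : pathDist x y < ENNReal.ofReal (L + 1 / ((n : ℝ) + 1)) :=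
    h.trans_lt ((ENNReal.ofReal_lt_ofReal_iff (by linarith)).2 (by linarith))
  obtain ⟨γ, hγ⟩ := iInf_lt_iff.1 this
  exact lip_of_path γ (by linarith) hγ.le

theorem closed_ball [CompactSpace E] (y : E) {L : ℝ} (hL : 0 ≤ L) :
    IsClosed {x | pathDist x y ≤ ENNReal.ofReal L} :=
  IsSeqClosed.isClosed fun _ _ h hx =>
    (lip_limit hL hx tendsto_const_nhds (fun _ => le_rfl) fun n => lip_of_le hL (h n)).le hL

theorem Lip.symm {x y : E} {L : ℝ} (h : Lip x y L) : Lip y x L := by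
  obtain ⟨g, g0, g1, hg⟩ := h
  refine ⟨fun s => g (L - s), by simpa using g1, by simpa using g0, fun s hs t ht => ?_⟩
  refine (hg _ ⟨by linarith [hs.2], by linarith [hs.1]⟩ _
    ⟨by linarith [ht.2], by linarith [ht.1]⟩).trans (le_of_eq ?_)
  rw [abs_sub_comm]; congr 1; ring

theorem Lip.sub {g : ℝ → E} {L : ℝ}
    (hg : ∀ s ∈ Icc 0 L, ∀ t ∈ Icc 0 L, dist (g s) (g t) ≤ |s - t|) {a b : ℝ} (ha : 0 ≤ a)
    (hb : b ≤ L) : Lip (g a) (g b) (b - a) := by
  refine ⟨fun s => g (a + s), by simp, by simp, fun s hs t ht => ?_⟩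
  refine (hg _ ⟨by linarith [hs.1], by linarith [hs.2]⟩ _
    ⟨by linarith [ht.1], by linarith [ht.2]⟩).trans (le_of_eq ?_)
  congr 1; ring

theorem Lip.trans {x y z : E} {L L' : ℝ} (hL : 0 ≤ L) (hL' : 0 ≤ L') (h : Lip x y L)
    (h' : Lip y z L') : Lip x z (L + L') := by
  obtain ⟨g, g0, g1, hg⟩ := h
  obtain ⟨f, f0, f1, hf⟩ := h'
  have mix : ∀ s ∈ Icc 0 (L + L'), ∀ t ∈ Icc 0 (L + L'), s ≤ L → ¬ t ≤ L →
      dist (g s) (f (t - L)) ≤ |s - t| := by
    intro s hs t ht a b
    have b := not_le.1 b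
    have c1 := hg s ⟨hs.1, a⟩ L ⟨hL, le_rfl⟩
    have c2 := hf 0 ⟨le_rfl, hL'⟩ (t - L) ⟨by linarith, by linarith [ht.2]⟩
    rw [g1, abs_of_nonpos (by linarith)] at c1
    rw [f0, abs_of_nonpos (by linarith)] at c2
    rw [abs_of_nonpos (by linarith)]
    linarith [dist_triangle (g s) y (f (t - L))]
  refine ⟨fun s => if s ≤ L then g s else f (s - L), by simp [hL, g0], ?_, fun s hs t ht => ?_⟩
  · by_cases h : L + L' ≤ L
    · have : L' = 0 := by linarith
      subst this
      simp [g1, ← f0, f1]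
    · simp [h, f1]
  · by_cases a : s ≤ L <;> by_cases b : t ≤ L <;> simp only [a, b, if_true, if_false]
    · exact hg s ⟨hs.1, a⟩ t ⟨ht.1, b⟩
    · exact mix s hs t ht a b
    · rw [dist_comm, abs_sub_comm]; exact mix t ht s hs b a
    · refine (hf _ ⟨by linarith [not_le.1 a], by linarith [hs.2]⟩ _
        ⟨by linarith [not_le.1 b], by linarith [ht.2]⟩).trans (le_of_eq ?_)
      congr 1; ring

/-- the intrinsic distance cut off at `M` -/
noncomputable def rho (M : ℝ) (x y : E) : ℝ := (min (pathDist x y) (ENNReal.ofReal M)).toReal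

theorem rho_nonneg (M : ℝ) (x y : E) : 0 ≤ rho M x y := ENNReal.toReal_nonneg

theorem rho_le_M {M : ℝ} (hM : 0 ≤ M) (x y : E) : rho M x y ≤ M :=
  ENNReal.toReal_le_of_le_ofReal hM (min_le_right _ _)

theorem rho_le {M r : ℝ} (hr : 0 ≤ r) {x y : E} (h : pathDist x y ≤ ENNReal.ofReal r) :
    rho M x y ≤ r :=
  ENNReal.toReal_le_of_le_ofReal hr ((min_le_left _ _).trans h)

theorem le_of_rho {M r : ℝ} (hr : r < M) {x y : E} (h : rho M x y ≤ r) :
    pathDist x y ≤ ENNReal.ofReal r := by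
  have h0 := (rho_nonneg M x y).trans h
  have hne : min (pathDist x y) (ENNReal.ofReal M) ≠ ⊤ :=
    ne_top_of_le_ne_top ENNReal.ofReal_ne_top (min_le_right _ _)
  have := (ENNReal.le_ofReal_iff_toReal_le hne h0).2 h
  rcases min_le_iff.1 this with h | h
  · exact h
  · exact absurd ((ENNReal.ofReal_le_ofReal_iff h0).1 h) (not_le.2 hr)

theorem lip_rho [CompactSpace E] {M : ℝ} {x y : E} (h : rho M x y < M) : Lip x y (rho M x y) :=
  lip_of_le (rho_nonneg _ _ _) (le_of_rho h le_rfl)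

theorem rho_self (M : ℝ) (x : E) : rho M x x = 0 :=
  le_antisymm (rho_le le_rfl (Lip.le le_rfl ⟨fun _ => x, rfl, rfl, fun _ _ _ _ => by simp⟩))
    (rho_nonneg _ _ _)

theorem rho_comm [CompactSpace E] {M : ℝ} (hM : 0 ≤ M) (x y : E) : rho M x y = rho M y x := by
  have : ∀ x y : E, rho M x y ≤ rho M y x := fun x y => by
    rcases lt_or_ge (rho M y x) M with h | h
    · exact rho_le (rho_nonneg _ _ _) ((lip_rho h).symm.le (rho_nonneg _ _ _))
    · exact (rho_le_M hM _ _).trans h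
  exact le_antisymm (this _ _) (this _ _)

theorem rho_tri [CompactSpace E] {M : ℝ} (hM : 0 ≤ M) (x y z : E) :
    rho M x z ≤ rho M x y + rho M y z := by
  have a := rho_nonneg M x y
  have b := rho_nonneg M y z
  have c := rho_le_M hM x z
  rcases lt_or_ge (rho M x y) M with h | h
  · rcases lt_or_ge (rho M y z) M with h' | h'
    · exact rho_le (add_nonneg a b) (((lip_rho h).trans a b (lip_rho h')).le (add_nonneg a b))
    · linarith
  · linarith

theorem rho_geo [CompactSpace E] {M : ℝ} (hM : 0 ≤ M) {x y : E} (h : rho M x y < M) :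
    ∃ g : ℝ → E, g 0 = x ∧ g (rho M x y) = y ∧ ContinuousOn g (Icc 0 (rho M x y)) ∧
      ∀ s ∈ Icc 0 (rho M x y), ∀ t ∈ Icc 0 (rho M x y), rho M (g s) (g t) = |s - t| := by
  obtain ⟨g, g0, g1, hg⟩ := lip_rho h
  have up : ∀ a b, 0 ≤ a → a ≤ b → b ≤ rho M x y → rho M (g a) (g b) ≤ b - a :=
    fun a b h1 h2 h3 => rho_le (by linarith) ((Lip.sub hg h1 h3).le (by linarith))
  have main : ∀ s ∈ Icc 0 (rho M x y), ∀ t ∈ Icc 0 (rho M x y), s ≤ t →
      rho M (g s) (g t) = t - s := by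
    intro s hs t ht hst
    have a1 := up 0 s le_rfl hs.1 hs.2
    have a2 := up s t hs.1 hst ht.2
    have a3 := up t _ ht.1 ht.2 le_rfl
    rw [g0] at a1
    rw [g1] at a3
    linarith [rho_tri hM x (g s) y, rho_tri hM (g s) (g t) y]
  refine ⟨g, g0, g1, (Lip.cont hg).continuousOn, fun s hs t ht => ?_⟩
  rcases le_total s t with hst | hst
  · rw [main s hs t ht hst, abs_of_nonpos (by linarith)]; ring
  · rw [rho_comm hM, main t ht s hs hst, abs_of_nonneg (by linarith)]

end Pool.Agent.WkD
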