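import Pool.Agent.P.MP_7d2be5_co.Del

namespace Pool.Agent.WkD
open Finset
open scoped Classical

variable {X : Type} [PseudoMetricSpace X] {M δ : ℝ}

/-- pairwise more than `2 δ` apart -/
def Sep (δ : ℝ) (Q : Finset X) : Prop := ∀ x ∈ Q, ∀ y ∈ Q, x ≠ y → 2 * δ < dist x y

/-- pairs that are first from some point after removing at most one point -/
def G3 (M : ℝ) (B : Finset X) (x y : X) : Prop :=
  x ≠ y ∧ ∃ T ⊆ B, T.card ≤ 1 ∧ x ∉ T ∧ y ∉ T ∧ ∃ p, dist p x < M ∧ dist p y < M ∧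
    ∀ z ∈ B, z ≠ x → z ≠ y → z ∉ T → key id p x < key id p z ∧ key id p y < key id p z

theorem g3 (π : Pl X M) {B : Finset X} (hB : B.Nonempty) :
    ∃ b ∈ B, (B.filter (G3 M B b)).card ≤ 88 := by
  have : ∀ e : X × X, ∃ T : Finset X, G3 M B e.1 e.2 → T ⊆ B ∧ T.card ≤ 1 ∧ e.1 ∉ T ∧ e.2 ∉ T ∧
      ∃ p, dist p e.1 < M ∧ dist p e.2 < M ∧ ∀ z ∈ B, z ≠ e.1 → z ≠ e.2 → z ∉ T →
        key id p e.1 < key id p z ∧ key id p e.2 < key id p z := by
    intro e
    by_cases h : G3 M B e.1 e.2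
    · obtain ⟨T, hT⟩ := h.2
      exact ⟨T, fun _ => hT⟩
    · exact ⟨∅, fun h' => (h h').elim⟩
  choose T hT using this
  have h1 := samp π id B (ed (G3 M B) B) T (fun _ => 1 / 2) (by intros; norm_num)
    (by intros; norm_num) (by
      intro e he
      obtain ⟨a1, a2, a3⟩ := mem_ed.1 he
      obtain ⟨b1, -, b3, b4, b5⟩ := hT e a3
      exact ⟨a3.1, a1, a2, b1, b3, b4, b5⟩)
  have h2 : ∑ e ∈ ed (G3 M B) B, (1 / 8 : ℝ) ≤
      ∑ e ∈ ed (G3 M B) B, (1 / 2 : ℝ) * (1 / 2) * ∏ z ∈ T e, (1 - 1 / 2) := by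
    refine sum_le_sum fun e he => ?_
    have := (hT e (mem_ed.1 he).2.2).2.1
    rw [prod_const]
    rcases Nat.le_one_iff_eq_zero_or_eq_one.1 this with h | h <;> rw [h] <;> norm_num
  simp only [sum_const, nsmul_eq_mul] at h1 h2
  have h3 : (ed (G3 M B) B).card ≤ 88 * B.card := by
    have : ((ed (G3 M B) B).card : ℝ) ≤ 88 * B.card := by linarith
    exact_mod_cast this
  rw [card_ed] at h3
  refine exists_le_of_sum_le hB (f := fun b => (B.filter (G3 M B b)).card) (g := fun _ => 88) ?_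
  simpa [mul_comm] using h3

theorem first3 {B V : Finset X} {p b : X} (T : X → Prop) (hb : b ∈ B) (hV : V ⊆ B)
    (h3 : 3 ≤ V.card) (hT : ∀ z ∈ B, ¬ T z → ∀ v ∈ V, key id p v < key id p z)
    (hU : (B.filter (fun z => key id p z ≤ key id p b)).card ≤ 3) :
    ∃ b' ∈ B, ∃ b'' ∈ B, T b' ∧ T b'' ∧ b' ≠ b ∧ b'' ≠ b ∧ b' ≠ b'' ∧
      ∀ z ∈ B, z ≠ b → z ≠ b' → z ≠ b'' →
        key id p b < key id p z ∧ key id p b' < key id p z ∧ key id p b'' < key id p z := by
  have hv : ∀ c : X, ∃ v ∈ V, v ≠ b ∧ v ≠ c := by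
    intro c
    have h1 : 0 < ((V.erase b).erase c).card := by
      have := pred_card_le_card_erase (s := V) (a := b)
      have := pred_card_le_card_erase (s := V.erase b) (a := c)
      omega
    obtain ⟨v, hv⟩ := card_pos.1 h1
    simp only [mem_erase] at hv
    exact ⟨v, hv.2.2, hv.2.1, hv.1⟩
  obtain ⟨v1, hv1, hv1b, -⟩ := hv b
  obtain ⟨b', hb', hm'⟩ := exists_min_image (B.erase b) (key id p) ⟨v1, mem_erase.2 ⟨hv1b, hV hv1⟩⟩
  obtain ⟨v2, hv2, hv2b, hv2c⟩ := hv b'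
  have hv2m : v2 ∈ (B.erase b).erase b' := mem_erase.2 ⟨hv2c, mem_erase.2 ⟨hv2b, hV hv2⟩⟩
  obtain ⟨b'', hb'', hm''⟩ := exists_min_image ((B.erase b).erase b') (key id p) ⟨v2, hv2m⟩
  simp only [mem_erase] at hb' hb''
  refine ⟨b', hb'.2, b'', hb''.2.2, ?_, ?_, hb'.1, hb''.2.1, hb''.1.symm, ?_⟩
  · by_contra h
    exact absurd (hT b' hb'.2 h v1 hv1) (not_lt.2 (hm' v1 (mem_erase.2 ⟨hv1b, hV hv1⟩)))
  · by_contra h
    exact absurd (hT b'' hb''.2.2 h v2 hv2) (not_lt.2 (hm'' v2 hv2m))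
  · intro z hz z1 z2 z3
    have c1 := hm' z (mem_erase.2 ⟨z1, hz⟩)
    have c2 := hm'' z (mem_erase.2 ⟨z2, mem_erase.2 ⟨z1, hz⟩⟩)
    refine ⟨?_, lt_of_le_of_ne c1 ((key_inj id p).ne z2.symm),
      lt_of_le_of_ne c2 ((key_inj id p).ne z3.symm)⟩
    by_contra h
    have h := not_lt.1 h
    have hs : ({b, b', b'', z} : Finset X) ⊆ B.filter (fun z => key id p z ≤ key id p b) := by
      simp only [insert_subset_iff, singleton_subset_iff, mem_filter]
      exact ⟨⟨hb, le_rfl⟩, ⟨hb'.2, c1.trans h⟩, ⟨hb''.2.2, c2.trans h⟩, hz, h⟩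
    have hc := card_le_card hs
    rw [card_insert_of_notMem (by simp [hb'.1.symm, hb''.2.1.symm, z1.symm]),
      card_insert_of_notMem (by simp [hb''.1.symm, z2.symm]), card_pair z3.symm] at hc
    omega

theorem walk (π : Pl X M) (hδ : 0 < δ) (hM : 4 * δ < M) {B : Finset X} (hB : Sep δ B) {s b : X}
    (hb : b ∈ B) (hs : dist s b ≤ 2 * δ) (h3 : 3 ≤ (B.filter (fun z => dist s z ≤ 2 * δ)).card) :
    ∃ p : X, ∃ V ⊆ B, dist s p ≤ 2 * δ ∧ 3 ≤ V.card ∧
      (∀ z ∈ B, ¬ dist s z ≤ 2 * δ → ∀ v ∈ V, key id p v < key id p z) ∧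
      (B.filter (fun z => key id p z ≤ key id p b)).card ≤ 3 := by
  obtain ⟨η, hη, hfar⟩ : ∃ η > 0, ∀ z ∈ B, ¬ dist s z ≤ 2 * δ → 2 * δ + η ≤ dist s z := by
    rcases (B.filter (fun z => ¬ dist s z ≤ 2 * δ)).eq_empty_or_nonempty with h | h
    · exact ⟨1, one_pos, fun z hz h' => absurd (mem_filter.2 ⟨hz, h'⟩) (by rw [h]; simp)⟩
    · obtain ⟨z0, hz0, hm⟩ := exists_min_image _ (dist s) h
      refine ⟨dist s z0 - 2 * δ, by linarith [not_le.1 (mem_filter.1 hz0).2], fun z hz h' => ?_⟩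
      linarith [hm z (mem_filter.2 ⟨hz, h'⟩)]
  obtain ⟨g, g0, g1, hg⟩ := π.geo s b (by linarith)
  set D := dist s b with hD
  have hD0 : 0 ≤ D := dist_nonneg
  obtain ⟨N, hN⟩ := exists_nat_gt (2 * D / η)
  have hN0 : (0 : ℝ) < N := lt_of_le_of_lt (by positivity) hN
  set h := D / N with hh
  have hh0 : 0 ≤ h := by positivity
  have hhη : 2 * h < η := by
    rw [div_lt_iff₀ hη] at hN
    rw [hh, ← mul_div_assoc, div_lt_iff₀ hN0]; linarith
  have hNh : N * h = D := by rw [hh]; field_simp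
  have hex : ∃ k : ℕ, k ≤ N ∧
      (B.filter (fun z => key id (g (k * h)) z ≤ key id (g (k * h)) b)).card ≤ 3 := by
    refine ⟨N, le_rfl, ?_⟩
    rw [hNh, g1]
    refine le_trans (card_le_card (t := {b}) fun z hz => ?_) (by simp)
    obtain ⟨hz, hk⟩ := mem_filter.1 hz
    by_contra hzb
    have := hB b hb z hz (fun e => hzb (by simp [e]))
    exact absurd hk (not_le.2 (key_lt_of (by simp only [id, dist_self]; linarith)))
  have hmem : ∀ k : ℕ, k ≤ N → (k : ℝ) * h ∈ Set.Icc 0 D := fun k hk =>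
    ⟨by positivity, by rw [← hNh]; gcongr⟩
  have hsp : ∀ t ∈ Set.Icc 0 D, dist s (g t) = t := fun t ht => by
    have := hg 0 ⟨le_rfl, hD0⟩ t ht
    rwa [g0, zero_sub, abs_neg, abs_of_nonneg ht.1] at this
  have hpb : ∀ t ∈ Set.Icc 0 D, dist (g t) b = D - t := fun t ht => by
    have := hg t ht D ⟨hD0, le_rfl⟩
    rwa [g1, abs_sub_comm, abs_of_nonneg (sub_nonneg.2 ht.2)] at this
  obtain ⟨hkN, hk⟩ := Nat.find_spec hex
  rcases hfind : Nat.find hex with _ | k
  · rw [hfind] at hk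
    simp only [Nat.cast_zero, zero_mul, g0] at hk
    refine ⟨s, _, filter_subset _ _, by simp only [dist_self]; linarith, h3, fun z _ hz v hv => ?_, hk⟩
    exact key_lt_of (lt_of_le_of_lt (mem_filter.1 hv).2 (not_le.1 hz))
  · have hmin := Nat.find_min hex (m := k) (by omega)
    rw [hfind] at hk hkN
    have hk' : k ≤ N := by omega
    have m1 := hmem k hk'
    have m2 := hmem (k + 1) hkN
    refine ⟨g ((k + 1 : ℕ) * h), B.filter (fun z => key id (g (k * h)) z ≤ key id (g (k * h)) b),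
      filter_subset _ _, by rw [hsp _ m2]; linarith [m2.2], ?_, fun z hz hz' v hv => ?_, hk⟩
    · by_contra hlt
      exact hmin ⟨hk', by omega⟩
    · refine key_lt_of ?_
      have a1 : dist (g (k * h)) v ≤ dist (g (k * h)) b := by
        rcases (mem_filter.1 hv).2.lt_or_eq with e | e
        · exact le_of_key_lt e
        · rw [key_inj id _ e]
      have a2 := hg _ m2 _ m1
      have a3 : |((k + 1 : ℕ) : ℝ) * h - k * h| = h := by
        push_cast
        rw [show ((k : ℝ) + 1) * h - k * h = h by ring, abs_of_nonneg hh0]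
      have a4 := dist_triangle (g ((k + 1 : ℕ) * h)) (g (k * h)) v
      have a5 := dist_triangle s (g ((k + 1 : ℕ) * h)) z
      have a6 := hfar z hz hz'
      rw [hsp _ m2] at a5
      rw [hpb _ m1] at a1
      rw [a3] at a2
      simp only [id]
      push_cast at a2 a4 a5 ⊢
      linarith

theorem swap (hδ : 0 < δ) {S : Set X} {B N T : Finset X} (hBS : ↑B ⊆ S) (hB : Sep δ B)
    (hmax : ∀ Q : Finset X, ↑Q ⊆ S → Sep δ Q → Q.card ≤ B.card) (hNS : ↑N ⊆ S) (hN : Sep δ N)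
    (hT : ∀ s ∈ N, B.filter (fun z => dist s z ≤ 2 * δ) = T) : N.card ≤ T.card := by
  have far : ∀ s ∈ N, ∀ z ∈ B \ T, 2 * δ < dist s z := by
    intro s hs z hz
    by_contra h
    exact (mem_sdiff.1 hz).2 (hT s hs ▸ mem_filter.2 ⟨(mem_sdiff.1 hz).1, not_lt.1 h⟩)
  rcases N.eq_empty_or_nonempty with rfl | ⟨s0, hs0⟩
  · simp
  have hTB : T ⊆ B := hT s0 hs0 ▸ filter_subset _ _
  have hd : Disjoint (B \ T) N := by
    rw [disjoint_left]
    intro z hz hzN
    have := far z hzN z hz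
    rw [dist_self] at this
    linarith
  have := hmax ((B \ T) ∪ N) (by
    rw [coe_union]
    exact Set.union_subset (fun z hz => hBS (mem_sdiff.1 hz).1) hNS) (by
      intro x hx y hy hxy
      rcases mem_union.1 hx with hx | hx <;> rcases mem_union.1 hy with hy | hy
      · exact hB x (mem_sdiff.1 hx).1 y (mem_sdiff.1 hy).1 hxy
      · rw [dist_comm]; exact far y hy x hx
      · exact far x hx y hy
      · exact hN x hx y hy hxy)
  rw [card_union_of_disjoint hd, card_sdiff_of_subset hTB] at this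
  have := card_le_card hTB
  omega

theorem three (π : Pl X M) (hM : 2 * δ < M) {N : Finset X} (hN : Sep δ N) (b : Fin 3 → X)
    (hb : ∀ j l, j ≠ l → 2 * δ < dist (b j) (b l)) (h : ∀ s ∈ N, ∀ j, dist s (b j) ≤ 2 * δ) :
    N.card ≤ 2 := by
  by_contra hc
  obtain ⟨A, hAN, hA⟩ := exists_subset_card_eq (s := N) (n := 3) (by omega)
  set a : Fin 3 → X := fun i => (A.equivFinOfCardEq hA).symm i with ha
  have hai : Function.Injective a := Subtype.val_injective.comp (Equiv.injective _)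
  have haN : ∀ i, a i ∈ N := fun i => hAN (Subtype.prop _)
  refine π.k33 a b (fun i j => {m | dist (a i) m + dist m (b j) = dist (a i) (b j)})
    (fun i j => π.seg _ _ (lt_of_le_of_lt (h _ (haN i) j) hM)) fun i j k l hik hjl => ?_
  rw [Set.disjoint_left]
  intro m m1 m2
  simp only [Set.mem_ofPred_eq] at m1 m2
  have := hN _ (haN i) _ (haN k) (hai.ne hik)
  have := hb j l hjl
  have := h _ (haN i) j
  have := h _ (haN k) l
  have := dist_triangle_right (a i) (a k) m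
  have := dist_triangle_left (b j) (b l) m
  linarith

theorem local_pack (π : Pl X M) (hδ : 0 < δ) (hM : 4 * δ < M) {S : Set X} (hS : S.Nonempty)
    (hfin : ∃ n, ∀ Q : Finset X, ↑Q ⊆ S → Sep δ Q → Q.card ≤ n) :
    ∃ b ∈ S, ∀ N : Finset X, ↑N ⊆ S → Sep δ N → (∀ s ∈ N, dist s b ≤ 2 * δ) →
      N.card ≤ 89 * 89 * 2 := by
  obtain ⟨B, hBS, hB, hmax⟩ : ∃ B : Finset X, ↑B ⊆ S ∧ Sep δ B ∧
      ∀ Q : Finset X, ↑Q ⊆ S → Sep δ Q → Q.card ≤ B.card := by
    have h1 := Nat.find_spec hfin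
    by_contra hc
    push Not at hc
    rcases hf : Nat.find hfin with _ | n
    · obtain ⟨Q, a1, a2, a3⟩ := hc ∅ (by simp) (by simp [Sep])
      have := h1 Q a1 a2
      omega
    · refine Nat.find_min hfin (m := n) (by omega) fun Q a1 a2 => ?_
      obtain ⟨Q', b1, b2, b3⟩ := hc Q a1 a2
      have := h1 Q' b1 b2
      omega
  have hne : B.Nonempty := by
    obtain ⟨s, hs⟩ := hS
    have := hmax {s} (by simpa using hs) (by simp [Sep])
    exact card_pos.1 (by simpa using this)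
  obtain ⟨b, hb, hdeg⟩ := g3 π hne
  refine ⟨b, hBS hb, fun N hNS hN hNb => ?_⟩
  set Γ := insert b (B.filter (G3 M B b)) with hΓ
  have hΓc : Γ.card ≤ 89 := (card_insert_le _ _).trans (by omega)
  have hΓB : Γ ⊆ B := insert_subset hb (filter_subset _ _)
  set Φ : X × X → X → Prop := fun q s =>
    (B.filter (fun z => dist s z ≤ 2 * δ) = {b, q.1} ∧ q.2 = b) ∨
      (q.1 ≠ b ∧ q.2 ≠ b ∧ q.1 ≠ q.2 ∧ dist s q.1 ≤ 2 * δ ∧ dist s q.2 ≤ 2 * δ) with hΦ
  have hsub : N ⊆ (Γ ×ˢ Γ).biUnion (fun q => N.filter (Φ q)) := by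
    intro s hs
    have hsb := hNb s hs
    have hbT : b ∈ B.filter (fun z => dist s z ≤ 2 * δ) := mem_filter.2 ⟨hb, hsb⟩
    suffices h : ∃ q ∈ Γ ×ˢ Γ, Φ q s by
      obtain ⟨q, h1, h2⟩ := h
      exact mem_biUnion.2 ⟨q, h1, mem_filter.2 ⟨hs, h2⟩⟩
    by_cases h3 : 3 ≤ (B.filter (fun z => dist s z ≤ 2 * δ)).card
    · obtain ⟨p, V, hV, hp, hV3, hT, hU⟩ := walk π hδ hM hB hb hsb h3
      obtain ⟨b', m1, b'', m2, t1, t2, n1, n2, n3, hk⟩ := first3 _ hb hV hV3 hT hU
      have dM : ∀ z, dist s z ≤ 2 * δ → dist p z < M := fun z hz => by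
        linarith [dist_triangle_left p z s]
      refine ⟨(b', b''), mem_product.2 ⟨?_, ?_⟩, .inr ⟨n1, n2, n3, t1, t2⟩⟩
      · refine mem_insert_of_mem (mem_filter.2 ⟨m1, n1.symm, {b''}, by simpa using m2, by simp,
          by simpa using n2.symm, by simpa using n3, p, dM _ hsb, dM _ t1, fun z hz a1 a2 a3 => ?_⟩)
        have := hk z hz a1 a2 (by simpa using a3)
        exact ⟨this.1, this.2.1⟩
      · refine mem_insert_of_mem (mem_filter.2 ⟨m2, n2.symm, {b'}, by simpa using m1, by simp,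
          by simpa using n1.symm, by simpa using n3.symm, p, dM _ hsb, dM _ t2,
          fun z hz a1 a2 a3 => ?_⟩)
        have := hk z hz a1 (by simpa using a3) a2
        exact ⟨this.1, this.2.2⟩
    · set T := B.filter (fun z => dist s z ≤ 2 * δ) with hT
      have hc : (T.erase b).card ≤ 1 := by rw [card_erase_of_mem hbT]; omega
      rcases (T.erase b).eq_empty_or_nonempty with he | ⟨b', hb'⟩
      · refine ⟨(b, b), mem_product.2 ⟨mem_insert_self _ _, mem_insert_self _ _⟩, .inl ⟨?_, rfl⟩⟩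
        rw [← hT, ← insert_erase hbT, he]; simp
      · have he : T.erase b = {b'} := eq_singleton_iff_unique_mem.2
          ⟨hb', fun z hz => card_le_one.1 hc z hz b' hb'⟩
        have hTe : T = {b, b'} := by rw [← insert_erase hbT, he]
        obtain ⟨n1, m1⟩ := mem_erase.1 hb'
        obtain ⟨m1, t1⟩ := mem_filter.1 m1
        refine ⟨(b', b), mem_product.2 ⟨?_, mem_insert_self _ _⟩, .inl ⟨hTe, rfl⟩⟩
        refine mem_insert_of_mem (mem_filter.2 ⟨m1, n1.symm, ∅, by simp, by simp, by simp, by simp,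
          s, by linarith, by linarith, fun z hz a1 a2 _ => ?_⟩)
        have : ¬ dist s z ≤ 2 * δ := fun h => by
          have : z ∈ T := mem_filter.2 ⟨hz, h⟩
          rw [hTe] at this
          simp [a1, a2] at this
        exact ⟨key_lt_of (lt_of_le_of_lt hsb (not_le.1 this)),
          key_lt_of (lt_of_le_of_lt t1 (not_le.1 this))⟩
  refine (card_le_card hsub).trans ((card_biUnion_le_card_mul _ _ 2 ?_).trans ?_)
  · rintro ⟨b', b''⟩ hq
    obtain ⟨q1, q2⟩ := mem_product.1 hq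
    have hNS' : ↑(N.filter (Φ (b', b''))) ⊆ S := fun z hz => hNS (mem_filter.1 hz).1
    have hN' : Sep δ (N.filter (Φ (b', b''))) := fun x hx y hy =>
      hN x (mem_filter.1 hx).1 y (mem_filter.1 hy).1
    by_cases hbb : b'' = b
    · refine (swap (T := {b, b'}) hδ hBS hB hmax hNS' hN' fun s hs => ?_).trans card_le_two
      rcases (mem_filter.1 hs).2 with h | h
      exacts [h.1, (h.2.1 hbb).elim]
    · rcases (N.filter (Φ (b', b''))).eq_empty_or_nonempty with he | ⟨s0, hs0⟩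
      · simp [he]
      have h0 := ((mem_filter.1 hs0).2).resolve_left (fun h => hbb h.2)
      have d1 := hB b hb b' (hΓB q1) h0.1.symm
      have d2 := hB b hb b'' (hΓB q2) h0.2.1.symm
      have d3 := hB b' (hΓB q1) b'' (hΓB q2) h0.2.2.1
      refine three π (by linarith) hN' ![b, b', b''] ?_ ?_
      · intro j l hjl
        fin_cases j <;> fin_cases l <;> simp_all [dist_comm]
      · intro s hs j
        have h := ((mem_filter.1 hs).2).resolve_left (fun h => hbb h.2)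
        fin_cases j
        exacts [hNb s (mem_filter.1 hs).1, h.2.2.2.1, h.2.2.2.2]
  · rw [card_product]
    gcongr

end Pool.Agent.WkD
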