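import Pool.Agent.P.MP_7d2be5_co.VK
import Pool.Agent.P.MP_7d2be5_co.Cover
import Pool.Agent.P.MP_7d2be5_co.Geo

namespace Pool.Agent.WkD
open Set

/-- a copy of `E` that carries the cut-off intrinsic distance -/
structure Wr (E : Type) where
  v : E

variable {E : Type} [MetricSpace E] [CompactSpace E]

/-- the cut-off intrinsic distance as a pseudometric -/
@[reducible] noncomputable def pm {M : ℝ} (hM : 0 ≤ M) : PseudoMetricSpace (Wr E) where
  dist x y := rho M x.v y.v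
  dist_self x := rho_self M x.v
  dist_comm x y := rho_comm hM x.v y.v
  dist_triangle x y z := rho_tri hM x.v y.v z.v

theorem exists_pl {M : ℝ} (hM : 0 ≤ M) (φ : E → ℂ) (hc : Continuous φ)
    (hi : Function.Injective φ) : Nonempty (@Pl (Wr E) (pm hM) M) := by
  let _ : PseudoMetricSpace (Wr E) := pm hM
  refine ⟨⟨fun W x y => JoinedIn ((fun w : Wr E => φ w.v) '' W) (φ x.v) (φ y.v), fun h => h.symm,
    fun h h' => h.trans h', fun h h' => h'.mono (image_mono h), ?_, ?_, ?_⟩⟩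
  · intro a b W h hd
    choose γ hγ using h
    refine vk33 (fun i => φ (a i).v) (fun j => φ (b j).v) (fun i j => (γ i j).extend)
      (fun i j => (γ i j).continuous_extend) (fun i j => by simp) (fun i j => by simp) ?_
    intro i j k l hik hjl s t h
    have m : ∀ i j s, (γ i j).extend s ∈ (fun w : Wr E => φ w.v) '' W i j := fun i j s => by
      have : (γ i j).extend s ∈ range (γ i j) := (γ i j).extend_range ▸ mem_range_self s
      obtain ⟨u, hu⟩ := this
      exact hu ▸ hγ i j u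
    obtain ⟨w, hw, e⟩ := m i j s
    obtain ⟨w', hw', e'⟩ := m k l t
    have : w = w' := congrArg Wr.mk (hi (e.trans (h.trans e'.symm)))
    exact disjoint_left.1 (hd i j k l hik hjl) hw (this ▸ hw')
  · intro x y h
    obtain ⟨g, g0, g1, gc, hg⟩ := rho_geo hM (x := x.v) (y := y.v) h
    set D := rho M x.v y.v with hD
    have hD0 : 0 ≤ D := rho_nonneg _ _ _
    have hm : MapsTo (fun t : ℝ => D * t) unitInterval (Icc 0 D) := fun t ht =>
      ⟨mul_nonneg hD0 ht.1, mul_le_of_le_one_right hD0 ht.2⟩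
    refine JoinedIn.ofLine (f := fun t => φ (g (D * t)))
      (hc.comp_continuousOn (gc.comp (by fun_prop) hm)) (by simp [g0]) (by simp [g1]) ?_
    rintro _ ⟨t, ht, rfl⟩
    refine ⟨⟨g (D * t)⟩, ?_, rfl⟩
    have m := hm ht
    have a := hg 0 ⟨le_rfl, hD0⟩ _ m
    have b := hg _ m D ⟨hD0, le_rfl⟩
    rw [g0, abs_of_nonpos (by linarith [m.1])] at a
    rw [g1, abs_of_nonpos (by linarith [m.2])] at b
    change rho M x.v (g (D * t)) + rho M (g (D * t)) y.v = D
    linarith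
  · intro x y h
    obtain ⟨g, g0, g1, -, hg⟩ := rho_geo hM (x := x.v) (y := y.v) h
    exact ⟨fun t => ⟨g t⟩, congrArg Wr.mk g0, congrArg Wr.mk g1, hg⟩

theorem weak_doubling : ∃ c : ℕ, ∀ (E : Type) [MetricSpace E] [CompactSpace E] (φ : E → ℂ),
    Continuous φ → Function.Injective φ → ∀ δ : ℝ, 0 < δ → ∀ S : Set E, S.Nonempty →
    (∃ n : ℕ, ∀ Q : Finset E, ↑Q ⊆ S →
      (∀ x ∈ Q, ∀ y ∈ Q, x ≠ y → ENNReal.ofReal (2 * δ) < pathDist x y) → Q.card ≤ n) →
    ∃ v ∈ S, ∃ C : Finset E, C.card ≤ c ∧ ∀ s ∈ S, pathDist v s ≤ ENNReal.ofReal (2 * δ) →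
      ∃ x ∈ C, pathDist x s ≤ ENNReal.ofReal δ := by
  classical
  obtain ⟨m, hm⟩ := cover (89 * 89 * 2) (by norm_num)
  refine ⟨m, fun E _ _ φ hc hi δ hδ S hS ⟨n, hn⟩ => ?_⟩
  have hM : 0 ≤ 5 * δ := by linarith
  let _ : PseudoMetricSpace (Wr E) := pm hM
  obtain ⟨π⟩ := exists_pl hM φ hc hi
  have vinj : Function.Injective (Wr.v : Wr E → E) := fun a b h => congrArg Wr.mk h
  obtain ⟨b, hb, hloc⟩ := local_pack π hδ (by linarith) (S := Wr.v ⁻¹' S)
    (by obtain ⟨s, hs⟩ := hS; exact ⟨⟨s⟩, hs⟩) ⟨n, fun Q hQ hs => by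
      rw [← Finset.card_image_of_injective Q vinj]
      refine hn _ (by simpa using hQ) ?_
      simp only [Finset.mem_image]
      rintro _ ⟨x, hx, rfl⟩ _ ⟨y, hy, rfl⟩ hxy
      have := hs x hx y hy fun h => hxy (h ▸ rfl)
      by_contra h
      exact absurd (rho_le (M := 5 * δ) (by linarith) (not_lt.1 h)) (not_le.2 this)⟩
  refine ⟨b.v, hb, ?_⟩
  let T := {s : E // s ∈ S ∧ pathDist b.v s ≤ ENNReal.ofReal (2 * δ)}
  let K : T → Set (Fin m → E) := fun s => {x | ∃ i, pathDist (x i) s.1 ≤ ENNReal.ofReal δ}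
  have hK : ∀ s, IsClosed (K s) := fun s => by
    simp only [K, ofPred_exists]
    exact isClosed_iUnion_of_finite fun i =>
      (closed_ball s.1 hδ.le).preimage (f := fun x : Fin m → E => x i) (continuous_apply i)
  obtain ⟨x, -, hx⟩ := isCompact_univ.inter_iInter_nonempty K hK fun u => by
    rcases u.eq_empty_or_nonempty with rfl | hu
    · exact ⟨fun _ => b.v, by simp⟩
    have mem : ∀ w ∈ u.image (fun s => (⟨s.1⟩ : Wr E)), w.v ∈ S ∧ dist w b ≤ 2 * δ := by
      intro w hw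
      obtain ⟨s, -, rfl⟩ := Finset.mem_image.1 hw
      exact ⟨s.2.1, by rw [dist_comm]; exact rho_le (by linarith) s.2.2⟩
    obtain ⟨x, hx⟩ := hm (Wr E) (5 * δ) δ π hδ (by linarith) (u.image fun s => ⟨s.1⟩)
      (hu.image _) fun Q hQ hs => hloc Q (fun w hw => (mem w (hQ hw)).1) hs
        fun w hw => (mem w (hQ hw)).2
    refine ⟨fun i => (x i).v, mem_univ _, mem_iInter₂.2 fun s hs => ?_⟩
    obtain ⟨i, hi⟩ := hx ⟨s.1⟩ (Finset.mem_image_of_mem _ hs)
    exact ⟨i, le_of_rho (M := 5 * δ) (by linarith) hi⟩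
  refine ⟨Finset.univ.image x, Finset.card_image_le.trans (by simp), fun s hs hd => ?_⟩
  obtain ⟨i, hi⟩ := mem_iInter.1 hx ⟨s, hs, hd⟩
  exact ⟨x i, Finset.mem_image_of_mem _ (Finset.mem_univ i), hi⟩

end Pool.Agent.WkD
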