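import Mathlib

namespace Pool.Agent.WkD
open Finset
open scoped Classical

variable {ι : Type}

/-- contraction of `v` into `u` -/
def con (G : ι → ι → Prop) (u v : ι) (x y : ι) : Prop :=
  x ≠ y ∧ x ≠ v ∧ y ≠ v ∧ (G x y ∨ (x = u ∧ G v y) ∨ (y = u ∧ G x v))

/-- ordered edges inside `A` -/
noncomputable def ed (G : ι → ι → Prop) (A : Finset ι) : Finset (ι × ι) :=
  (A ×ˢ A).filter (fun p => G p.1 p.2)

theorem mem_ed {G : ι → ι → Prop} {A : Finset ι} {p : ι × ι} :
    p ∈ ed G A ↔ p.1 ∈ A ∧ p.2 ∈ A ∧ G p.1 p.2 := by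
  simp [ed, and_assoc]

theorem card_ed (G : ι → ι → Prop) (A : Finset ι) :
    (ed G A).card = ∑ x ∈ A, (A.filter (G x)).card := by
  rw [ed, card_filter, sum_product]
  exact sum_congr rfl fun x _ => by rw [card_filter]

theorem ed_con {G : ι → ι → Prop} (hs : ∀ x y, G x y → G y x) (hi : ∀ x, ¬ G x x)
    {A : Finset ι} {u v : ι} (hu : u ∈ A) (huv : G u v) :
    (ed G A).card ≤ (ed (con G u v) (A.erase v)).card +
      2 * ((A.filter (fun z => G u z ∧ G v z)).card + 1) := by
  have hne : u ≠ v := fun h => hi v (h ▸ huv)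
  set C := insert u (A.filter (fun z => G u z ∧ G v z)) with hC
  have hCc : C.card ≤ (A.filter (fun z => G u z ∧ G v z)).card + 1 := card_insert_le _ _
  set Gd := (ed G A).filter (fun p => ¬ (p.1 = v ∧ p.2 ∈ C) ∧ ¬ (p.2 = v ∧ p.1 ∈ C)) with hGd
  have hsub : ed G A ⊆ Gd ∪ (C.image (fun y => (v, y)) ∪ C.image (fun x => (x, v))) := by
    intro p hp
    by_cases h1 : p.1 = v ∧ p.2 ∈ C
    · exact mem_union_right _ (mem_union_left _ (mem_image.2 ⟨p.2, h1.2, by rw [← h1.1]⟩))
    by_cases h2 : p.2 = v ∧ p.1 ∈ C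
    · exact mem_union_right _ (mem_union_right _ (mem_image.2 ⟨p.1, h2.2, by rw [← h2.1]⟩))
    exact mem_union_left _ (mem_filter.2 ⟨hp, h1, h2⟩)
  have hG : Gd.card ≤ (ed (con G u v) (A.erase v)).card := by
    have key : ∀ p ∈ Gd, p.1 ∈ A ∧ p.2 ∈ A ∧ G p.1 p.2 ∧ (p.1 = v → p.2 ≠ u ∧ ¬ G u p.2) ∧
        (p.2 = v → p.1 ≠ u ∧ ¬ G u p.1) := by
      intro p hp
      obtain ⟨hp, h1, h2⟩ := mem_filter.1 hp
      obtain ⟨a1, a2, a3⟩ := mem_ed.1 hp
      refine ⟨a1, a2, a3, fun h => ⟨fun e => h1 ⟨h, by simp [hC, e]⟩, fun e => h1 ⟨h, ?_⟩⟩,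
        fun h => ⟨fun e => h2 ⟨h, by simp [hC, e]⟩, fun e => h2 ⟨h, ?_⟩⟩⟩
      · exact mem_insert_of_mem (mem_filter.2 ⟨a2, e, h ▸ a3⟩)
      · exact mem_insert_of_mem (mem_filter.2 ⟨a1, e, hs _ _ (h ▸ a3)⟩)
    refine card_le_card_of_injOn
      (fun p => (if p.1 = v then u else p.1, if p.2 = v then u else p.2)) ?_ ?_
    · rintro ⟨x, y⟩ hp
      obtain ⟨a1, a2, a3, a4, a5⟩ := key _ hp
      simp only at a1 a2 a3 a4 a5
      have hxy : x ≠ y := fun h => hi y (h ▸ a3)
      simp only [mem_coe, mem_ed, mem_erase, con]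
      by_cases hx : x = v <;> by_cases hy : y = v
      · exact (hxy (hx.trans hy.symm)).elim
      · subst hx
        simp [hy, hne, hu, a2, a3, (a4 rfl).1.symm]
      · subst hy
        simp [hx, hne, hu, a1, a3, (a5 rfl).1]
      · simp [hx, hy, a1, a2, a3, hxy]
    · rintro ⟨x, y⟩ hp ⟨z, w⟩ hq h
      obtain ⟨a1, a2, a3, a4, a5⟩ := key _ hp
      obtain ⟨b1, b2, b3, b4, b5⟩ := key _ hq
      simp only [Prod.mk.injEq] at a1 a2 a3 a4 a5 b1 b2 b3 b4 b5 h ⊢
      have := hs _ _ a3
      have := hs _ _ b3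
      have := hi x
      have := hi z
      grind
  have h3 := card_le_card hsub
  have h4 := card_union_le Gd (C.image (fun y => (v, y)) ∪ C.image (fun x => (x, v)))
  have h5 := card_union_le (C.image (fun y => (v, y))) (C.image (fun x => (x, v)))
  have h6 : (C.image (fun y => (v, y))).card ≤ C.card := card_image_le
  have h7 : (C.image (fun x => (x, v))).card ≤ C.card := card_image_le
  omega

/-- constants of the sparsity bound -/
def cs : ℕ → ℕ
  | 0 => 1
  | r + 1 => 2 * (cs r + 1)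

theorem sparse_aux (D : (ι → ι → Prop) → Prop)
    (hcon : ∀ G u v, (∀ x y, G x y → G y x) → G u v → D G → D (con G u v))
    (hk : ∀ G (a b : Fin 3 → ι), D G → Function.Injective a → Function.Injective b →
      (∀ i j, a i ≠ b j) → (∀ i j, G (a i) (b j)) → False) (r : ℕ) :
    ∀ (n : ℕ) (A Z : Finset ι) (G : ι → ι → Prop), A.card = n → (∀ x y, G x y → G y x) →
      (∀ x, ¬ G x x) → D G → Disjoint A Z → Z.card + r = 3 → (∀ z ∈ Z, ∀ x ∈ A, G z x) →
      (ed G A).card ≤ cs r * n := by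
  induction r with
  | zero =>
    intro n A Z G hn hs hi hD hd hZ hG
    by_cases h3 : 3 ≤ n
    · exfalso
      obtain ⟨B, hBA, hB⟩ := exists_subset_card_eq (s := A) (n := 3) (by omega)
      have hZ3 : Z.card = 3 := by omega
      refine hk G (fun i => (Z.equivFinOfCardEq hZ3).symm i) (fun i => (B.equivFinOfCardEq hB).symm i)
        hD ?_ ?_ ?_ ?_
      · exact Subtype.val_injective.comp (Equiv.injective _)
      · exact Subtype.val_injective.comp (Equiv.injective _)
      · intro i j h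
        exact disjoint_left.1 hd (hBA (Subtype.prop _)) (h ▸ Subtype.prop _)
      · intro i j
        exact hG _ (Subtype.prop _) _ (hBA (Subtype.prop _))
    · have : ed G A ⊆ A.offDiag := by
        intro p hp
        obtain ⟨a1, a2, a3⟩ := mem_ed.1 hp
        exact mem_offDiag.2 ⟨a1, a2, fun h => hi p.2 (h ▸ a3)⟩
      have h2 := card_le_card this
      rw [offDiag_card, hn] at h2
      have : n ≤ 2 := by omega
      simp only [cs]
      interval_cases n <;> omega
  | succ r ih =>
    intro n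
    induction n with
    | zero =>
      intro A Z G hn _ _ _ _ _ _
      rw [card_eq_zero.1 hn]; simp [ed]
    | succ n ihn =>
      intro A Z G hn hs hi hD hd hZ hG
      by_cases hc : ∃ u ∈ A, ∃ v ∈ A, G u v ∧ (A.filter (fun z => G u z ∧ G v z)).card ≤ cs r
      · obtain ⟨u, hu, v, hv, huv, hcm⟩ := hc
        have h1 := ed_con hs hi hu huv
        have h2 := ihn (A.erase v) Z (con G u v) (by rw [card_erase_of_mem hv]; omega)
          (fun x y h => ⟨h.1.symm, h.2.2.1, h.2.1, by
            rcases h.2.2.2 with h | h | h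
            · exact .inl (hs _ _ h)
            · exact .inr (.inr ⟨h.1, hs _ _ h.2⟩)
            · exact .inr (.inl ⟨h.1, hs _ _ h.2⟩)⟩)
          (fun x h => h.1 rfl) (hcon G u v hs huv hD) (hd.mono_left (erase_subset _ _)) hZ
          (fun z hz x hx => ⟨fun h => disjoint_left.1 hd (mem_of_mem_erase hx) (h ▸ hz),
            fun h => disjoint_left.1 hd hv (h ▸ hz), (mem_erase.1 hx).1,
            .inl (hG z hz x (mem_of_mem_erase hx))⟩)
        simp only [cs] at h2 ⊢
        nlinarith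
      · push Not at hc
        rcases (ed G A).eq_empty_or_nonempty with he | ⟨⟨v, u0⟩, hp⟩
        · simp [he]
        exfalso
        obtain ⟨hv, hu0, hvu⟩ := mem_ed.1 hp
        simp only at hv hu0 hvu
        have hvZ : v ∉ Z := disjoint_left.1 hd hv
        have h1 := ih _ (A.filter (G v)) (insert v Z) G rfl hs hi hD
          (by
            rw [disjoint_insert_right]
            exact ⟨fun h => hi v (mem_filter.1 h).2, hd.mono_left (filter_subset _ _)⟩)
          (by rw [card_insert_of_notMem hvZ]; omega)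
          (by
            intro z hz x hx
            rcases mem_insert.1 hz with rfl | hz
            · exact (mem_filter.1 hx).2
            · exact hG z hz x (mem_filter.1 hx).1)
        rw [card_ed] at h1
        have h2 : ∑ x ∈ A.filter (G v), (cs r + 1) ≤
            ∑ x ∈ A.filter (G v), ((A.filter (G v)).filter (G x)).card := by
          refine sum_le_sum fun x hx => ?_
          have := hc x (mem_filter.1 hx).1 v hv (hs _ _ (mem_filter.1 hx).2)
          rw [filter_filter]
          simp only [and_comm (a := G v _)]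
          omega
        have h3 : 0 < (A.filter (G v)).card := card_pos.2 ⟨u0, mem_filter.2 ⟨hu0, hvu⟩⟩
        rw [sum_const, smul_eq_mul] at h2
        nlinarith

/-- connectivity data of a space drawn in the plane, with geodesics below the scale `M` -/
structure Pl (X : Type) [PseudoMetricSpace X] (M : ℝ) where
  Conn : Set X → X → X → Prop
  symm : ∀ {W x y}, Conn W x y → Conn W y x
  trans : ∀ {W x y z}, Conn W x y → Conn W y z → Conn W x z
  mono : ∀ {W W' x y}, W ⊆ W' → Conn W x y → Conn W' x y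
  k33 : ∀ (a b : Fin 3 → X) (W : Fin 3 → Fin 3 → Set X), (∀ i j, Conn (W i j) (a i) (b j)) →
    (∀ i j k l, i ≠ k → j ≠ l → Disjoint (W i j) (W k l)) → False
  seg : ∀ x y, dist x y < M → Conn {m | dist x m + dist m y = dist x y} x y
  geo : ∀ x y, dist x y < M → ∃ g : ℝ → X, g 0 = x ∧ g (dist x y) = y ∧
    ∀ s ∈ Set.Icc 0 (dist x y), ∀ t ∈ Set.Icc 0 (dist x y), dist (g s) (g t) = |s - t|

variable {X : Type} [PseudoMetricSpace X] {M : ℝ}

/-- a drawing in which vertex-disjoint edges are disjoint -/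
def Drawn (π : Pl X M) (l : ι → X) (G : ι → ι → Prop) : Prop :=
  ∃ W : ι → ι → Set X, (∀ x y, G x y → π.Conn (W x y) (l x) (l y)) ∧
    ∀ x y z w, G x y → G z w → x ≠ z → x ≠ w → y ≠ z → y ≠ w → Disjoint (W x y) (W z w)

theorem Drawn.con {π : Pl X M} {l : ι → X} {G : ι → ι → Prop} {u v : ι}
    (hs : ∀ x y, G x y → G y x) (huv : G u v) (h : Drawn π l G) : Drawn π l (con G u v) := by
  obtain ⟨W, h1, h2⟩ := h
  refine ⟨fun x y => if G x y then W x y else if x = u then W u v ∪ W v y else W x v ∪ W v u, ?_, ?_⟩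
  · rintro x y ⟨hxy, hx, hy, h⟩
    by_cases hg : G x y
    · simpa [hg] using h1 x y hg
    rcases h with h | ⟨rfl, h⟩ | ⟨rfl, h⟩
    · exact (hg h).elim
    · simp only [hg, if_false, if_true]
      exact π.trans (π.mono Set.subset_union_left (h1 _ _ huv))
        (π.mono Set.subset_union_right (h1 _ _ h))
    · simp only [hg, hxy, if_false]
      exact π.trans (π.mono Set.subset_union_left (h1 _ _ h))
        (π.mono Set.subset_union_right (h1 _ _ (hs _ _ huv)))
  · rintro x y z w ⟨hxy, hx, hy, h⟩ ⟨hzw, hz, hw, h'⟩ a1 a2 a3 a4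
    have hvu := hs _ _ huv
    by_cases hg : G x y <;> by_cases hg' : G z w
    · simpa [hg, hg'] using h2 x y z w hg hg' a1 a2 a3 a4
    · rcases h' with h' | ⟨rfl, h'⟩ | ⟨rfl, h'⟩
      · exact (hg' h').elim
      · simp only [hg, hg', if_false, if_true, Set.disjoint_union_right]
        exact ⟨h2 _ _ _ _ hg huv a1 hx a3 hy, h2 _ _ _ _ hg h' hx a2 hy a4⟩
      · simp only [hg, hg', hzw, if_false, if_true, Set.disjoint_union_right]
        exact ⟨h2 _ _ _ _ hg h' a1 hx a3 hy, h2 _ _ _ _ hg hvu hx a2 hy a4⟩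
    · rcases h with h | ⟨rfl, h⟩ | ⟨rfl, h⟩
      · exact (hg h).elim
      · simp only [hg, hg', if_false, if_true, Set.disjoint_union_left]
        exact ⟨h2 _ _ _ _ huv hg' a1 a2 (Ne.symm hz) (Ne.symm hw),
          h2 _ _ _ _ h hg' (Ne.symm hz) (Ne.symm hw) a3 a4⟩
      · simp only [hg, hg', hxy, if_false, if_true, Set.disjoint_union_left]
        exact ⟨h2 _ _ _ _ h hg' a1 a2 (Ne.symm hz) (Ne.symm hw),
          h2 _ _ _ _ hvu hg' (Ne.symm hz) (Ne.symm hw) a3 a4⟩
    · exfalso
      grind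

theorem Drawn.sparse {π : Pl X M} {l : ι → X} {G : ι → ι → Prop} (hs : ∀ x y, G x y → G y x)
    (hi : ∀ x, ¬ G x x) (h : Drawn π l G) (A : Finset ι) : (ed G A).card ≤ 22 * A.card := by
  refine sparse_aux (Drawn π l) (fun G u v hs huv h => h.con hs huv) ?_ 3 _ A ∅ G rfl hs hi h
    (disjoint_empty_right _) (by simp) (by simp)
  rintro G a b ⟨W, h1, h2⟩ ha hb hab hG
  exact π.k33 (fun i => l (a i)) (fun j => l (b j)) (fun i j => W (a i) (b j))
    (fun i j => h1 _ _ (hG i j)) fun i j k m hik hjm =>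
      h2 _ _ _ _ (hG i j) (hG k m) (ha.ne hik) (hab _ _) (hab _ _).symm (hb.ne hjm)

end Pool.Agent.WkD
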