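import Mathlib

namespace Pool.Agent.WkD
open Complex

theorem log_const {f : ℝ → ℂ} (hf : Continuous f) (h : ∀ s, exp (f s) = exp (f 0)) : f 1 = f 0 := by
  refine Complex.isCoveringMap_exp.const_of_comp hf (fun s t => ?_) 1 0
  exact Subtype.ext (by simp [h s, h t])

theorem log_uniq {f g : ℝ → ℂ} (hf : Continuous f) (hg : Continuous g) (c : ℂ)
    (h : ∀ s, exp (f s) = c * exp (g s)) : f 1 - f 0 = g 1 - g 0 := by
  have := log_const (f := fun s => f s - g s) (hf.sub hg) (fun s => by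
    simp only [exp_sub, h]
    field_simp)
  linear_combination this

theorem exists_log {A : Type} [NormedAddCommGroup A] [NormedSpace ℝ A] {g : A → ℂ}
    (hg : Continuous g) (h0 : ∀ s, g s ≠ 0) : ∃ f : A → ℂ, Continuous f ∧ ∀ s, exp (f s) = g s := by
  have hs : IsSimplyConnected (Set.univ : Set A) := by
    rw [IsSimplyConnected]
    exact (Homeomorph.Set.univ A).toHomotopyEquiv.simplyConnectedSpace
  obtain ⟨f, hf, hfe⟩ := exists_continuousOn_eqOn_exp_comp hs isOpen_univ hg.continuousOn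
    (by rintro ⟨s, -, hs⟩; exact h0 s hs)
  exact ⟨f, continuousOn_univ.1 hf, fun s => hfe (Set.mem_univ s)⟩

theorem square {g h : ℝ → ℂ} (hg : Continuous g) (hh : Continuous h) (hd : ∀ s t, g s ≠ h t)
    {f1 f2 f3 f4 : ℝ → ℂ} (c1 : Continuous f1) (c2 : Continuous f2) (c3 : Continuous f3)
    (c4 : Continuous f4) (e1 : ∀ s, exp (f1 s) = g s - h 0) (e2 : ∀ s, exp (f2 s) = h s - g 1)
    (e3 : ∀ s, exp (f3 s) = h s - g 0) (e4 : ∀ s, exp (f4 s) = g s - h 1) :
    (f1 1 - f1 0) + (f2 1 - f2 0) = (f3 1 - f3 0) + (f4 1 - f4 0) := by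
  obtain ⟨F, hF, hFe⟩ := exists_log (A := ℝ × ℝ) (g := fun p => g p.1 - h p.2) (by fun_prop)
    (fun p => sub_ne_zero.2 (hd _ _))
  have a1 := log_uniq (f := f1) (g := fun s => F (s, 0)) c1 (by fun_prop) 1
    (fun s => by rw [e1, hFe]; ring)
  have a2 := log_uniq (f := f2) (g := fun s => F (1, s)) c2 (by fun_prop) (-1)
    (fun s => by rw [e2, hFe]; ring)
  have a3 := log_uniq (f := f3) (g := fun s => F (0, s)) c3 (by fun_prop) (-1)
    (fun s => by rw [e3, hFe]; ring)
  have a4 := log_uniq (f := f4) (g := fun s => F (s, 1)) c4 (by fun_prop) 1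
    (fun s => by rw [e4, hFe]; ring)
  linear_combination a1 + a2 - a3 - a4

theorem other (j : Fin 3) : ∃ l : Fin 3, j ≠ l := by
  revert j; decide

theorem int_of_exp {x y : ℂ} (h : exp x = exp y) : ∃ n : ℤ, x = y + n * (2 * Real.pi * I) :=
  exp_eq_exp_iff_exists_int.1 h

theorem vk33 (a b : Fin 3 → ℂ) (g : Fin 3 → Fin 3 → ℝ → ℂ) (hc : ∀ i j, Continuous (g i j))
    (h0 : ∀ i j, g i j 0 = a i) (h1 : ∀ i j, g i j 1 = b j)
    (hd : ∀ i j k l, i ≠ k → j ≠ l → ∀ s t, g i j s ≠ g k l t) : False := by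
  have hA : ∀ k i j, ∃ f : ℝ → ℂ, Continuous f ∧ (i ≠ k → ∀ s, exp (f s) = g i j s - a k) := by
    intro k i j
    by_cases hik : i = k
    · exact ⟨0, continuous_const, fun h => (h hik).elim⟩
    · obtain ⟨l, hl⟩ := other j
      obtain ⟨f, hf, hfe⟩ := exists_log (g := fun s => g i j s - a k) (by fun_prop)
        (fun s => sub_ne_zero.2 (by rw [← h0 k l]; exact hd _ _ _ _ hik hl _ _))
      exact ⟨f, hf, fun _ => hfe⟩
  have hB : ∀ l i j, ∃ f : ℝ → ℂ, Continuous f ∧ (j ≠ l → ∀ s, exp (f s) = g i j s - b l) := by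
    intro l i j
    by_cases hjl : j = l
    · exact ⟨0, continuous_const, fun h => (h hjl).elim⟩
    · obtain ⟨k, hk⟩ := other i
      obtain ⟨f, hf, hfe⟩ := exists_log (g := fun s => g i j s - b l) (by fun_prop)
        (fun s => sub_ne_zero.2 (by rw [← h1 k l]; exact hd _ _ _ _ hk hjl _ _))
      exact ⟨f, hf, fun _ => hfe⟩
  choose fA cA eA using hA
  choose fB cB eB using hB
  have naa : ∀ i k, i ≠ k → a i - a k ≠ 0 := fun i k h => sub_ne_zero.2 (by
    rw [← h0 i 0, ← h0 k 1]; exact hd _ _ _ _ h (by decide) _ _)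
  have nbb : ∀ j l, j ≠ l → b j - b l ≠ 0 := fun j l h => sub_ne_zero.2 (by
    rw [← h1 0 j, ← h1 1 l]; exact hd _ _ _ _ (by decide) h _ _)
  have nba : ∀ j k, b j - a k ≠ 0 := fun j k => sub_ne_zero.2 (by
    obtain ⟨i, hi⟩ := other k
    obtain ⟨l, hl⟩ := other j
    rw [← h1 i j, ← h0 k l]; exact hd _ _ _ _ hi.symm hl _ _)
  have hp : ∀ k i j, ∃ n : ℤ, i ≠ k → fA k i j 1 - fA k i j 0 =
      log (b j - a k) - log (a i - a k) + n * (2 * Real.pi * I) := by
    intro k i j
    by_cases hik : i = k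
    · exact ⟨0, fun h => (h hik).elim⟩
    · obtain ⟨n, hn⟩ := int_of_exp (x := fA k i j 1 - fA k i j 0)
        (y := log (b j - a k) - log (a i - a k)) (by
          rw [exp_sub, exp_sub, eA k i j hik, eA k i j hik, h0, h1, exp_log (nba _ _),
            exp_log (naa _ _ hik)])
      exact ⟨n, fun _ => hn⟩
  have hq : ∀ l i j, ∃ n : ℤ, j ≠ l → fB l i j 1 - fB l i j 0 =
      log (b j - b l) - log (b l - a i) + Real.pi * I + n * (2 * Real.pi * I) := by
    intro l i j
    by_cases hjl : j = l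
    · exact ⟨0, fun h => (h hjl).elim⟩
    · obtain ⟨n, hn⟩ := int_of_exp (x := fB l i j 1 - fB l i j 0)
        (y := log (b j - b l) - log (b l - a i) + Real.pi * I) (by
          rw [exp_add, exp_pi_mul_I, exp_sub, exp_sub, eB l i j hjl, eB l i j hjl, h0, h1,
            exp_log (nba _ _), exp_log (nbb _ _ hjl), ← neg_sub (b l) (a i), div_neg]
          ring)
      exact ⟨n, fun _ => hn⟩
  have hu : ∀ (c : Fin 3 → ℂ), (∀ i k, i ≠ k → c i - c k ≠ 0) → ∀ i k, ∃ n : ℤ, i ≠ k →
      log (c k - c i) = log (c i - c k) + Real.pi * I + n * (2 * Real.pi * I) := by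
    intro c hcc i k
    by_cases hik : i = k
    · exact ⟨0, fun h => (h hik).elim⟩
    · obtain ⟨n, hn⟩ := int_of_exp (x := log (c k - c i)) (y := log (c i - c k) + Real.pi * I) (by
        rw [exp_add, exp_pi_mul_I, exp_log (hcc _ _ hik), exp_log (hcc _ _ (Ne.symm hik))]
        ring)
      exact ⟨n, fun _ => hn⟩
  choose p hp using hp
  choose q hq using hq
  choose u hu' using hu a naa
  choose v hv' using hu b nbb
  have h2 : (2 * Real.pi * I : ℂ) ≠ 0 := two_pi_I_ne_zero
  have hvv : ∀ j l, j ≠ l → v j l + v l j + 1 = 0 := by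
    intro j l h
    have : ((v j l + v l j + 1 : ℤ) : ℂ) * (2 * Real.pi * I) = 0 := by
      push_cast
      linear_combination -(hv' j l h) - hv' l j h.symm
    exact_mod_cast (mul_eq_zero.1 this).resolve_right h2
  have R : ∀ i j k l, i ≠ k → j ≠ l →
      u i k + v j l + 1 + p k i j + q j k l - p i k l - q l i j = 0 := by
    intro i j k l hik hjl
    have sq := square (hc i j) (hc k l) (hd i j k l hik hjl) (cA k i j) (cB j k l) (cA i k l)
      (cB l i j) (fun s => by rw [eA k i j hik, h0]) (fun s => by rw [eB j k l hjl.symm, h1])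
      (fun s => by rw [eA i k l hik.symm, h0]) (fun s => by rw [eB l i j hjl, h1])
    rw [hp k i j hik, hp i k l hik.symm, hq j k l hjl.symm, hq l i j hjl] at sq
    have : ((u i k + v j l + 1 + p k i j + q j k l - p i k l - q l i j : ℤ) : ℂ) *
        (2 * Real.pi * I) = 0 := by
      push_cast
      linear_combination sq - hu' i k hik - hv' j l hjl
    exact_mod_cast (mul_eq_zero.1 this).resolve_right h2
  have S : ∀ i k, i ≠ k → 6 * u i k + 3 + 2 * (p k i 0 + p k i 1 + p k i 2)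
      - 2 * (p i k 0 + p i k 1 + p i k 2)
      + (q 0 k 1 + q 0 k 2 + q 1 k 0 + q 1 k 2 + q 2 k 0 + q 2 k 1)
      - (q 0 i 1 + q 0 i 2 + q 1 i 0 + q 1 i 2 + q 2 i 0 + q 2 i 1) = 0 := by
    intro i k h
    have r1 := R i 0 k 1 h (by decide)
    have r2 := R i 0 k 2 h (by decide)
    have r3 := R i 1 k 0 h (by decide)
    have r4 := R i 1 k 2 h (by decide)
    have r5 := R i 2 k 0 h (by decide)
    have r6 := R i 2 k 1 h (by decide)
    have v1 := hvv 0 1 (by decide)
    have v2 := hvv 0 2 (by decide)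
    have v3 := hvv 1 2 (by decide)
    linear_combination r1 + r2 + r3 + r4 + r5 + r6 - v1 - v2 - v3
  have s1 := S 0 1 (by decide)
  have s2 := S 0 2 (by decide)
  have s3 := S 1 2 (by decide)
  omega

end Pool.Agent.WkD
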